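import Mathlib
import Pool.Agent.D0H44.FR.Stm

/-! Project EC (MP_9cfc0a_nt slot 2): for almost all moduli `q ∈ (Q, 2 Q]`, `Q ≤ x ^ (1/2 - ε)`, the
error term `ψ(u; q, a) - u / φ(q)` is large in mean square over `u ∈ [x, 2 x]` for EVERY reduced
class `a`. Definitions and statements of the packages. Test functions: `w(u / x) e(u / (r q))`,
`r ∈ (R, 2 R]` prime: for `n ≡ a (mod q)` one has `e(n / (r q)) = const * e(n j / r)` with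
`j q ≡ 1 (mod r)`. -/

open Finset MeasureTheory

namespace Pool.Agent.D0H44.EC

open H343 (ex)
open Pool.Agent.H398R2.BV Pool.Agent.H410R2
open Pool.Agent.D0H44.EL
open Pool.Agent.D0H44.EM (ps Er)
open Pool.Agent.D0H44.FR

/-- the derivative of `w(u / x) e(u / (r q))` -/
noncomputable def gg (x : ℝ) (q r : ℕ) (u : ℝ) : ℂ :=
  ((w1 (u / x) / x : ℝ) : ℂ) * ex (u / ((r * q : ℕ) : ℝ)) +
    ((w (u / x) : ℝ) : ℂ) * (((2 * Real.pi / ((r * q : ℕ) : ℝ) : ℝ) : ℂ) * Complex.I *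
      ex (u / ((r * q : ℕ) : ℝ)))

/-- package PD: the inner product. As `t_IB` (file `Pool/Agent/D0H51/FR/IB.lean`) or `one_class`
(file `Pool/Agent/D0H44/EM/Prd.lean`), with the function `g(u) = w(u / x) e(u / (r q))` and its
derivative `gg`; `g` vanishes at `x` and `2 x`. -/
def S_PD : Prop := ∀ (x : ℝ) (q a r M : ℕ), 1 ≤ x → 1 ≤ q → 1 ≤ r → 2 * x ≤ M →
  ∫ u in x..(2 * x), ((Er q a u : ℝ) : ℂ) * gg x q r u =
    -∑ n ∈ (Icc 1 M).filter (fun n => n ≡ a [MOD q]),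
      ((ArithmeticFunction.vonMangoldt n : ℝ) : ℂ) *
        (((w ((n : ℝ) / x) : ℝ) : ℂ) * ex ((n : ℝ) / ((r * q : ℕ) : ℝ))) +
    (1 / (Nat.totient q : ℂ)) *
      ∫ u in x..(2 * x), ((w (u / x) : ℝ) : ℂ) * ex (u / ((r * q : ℕ) : ℝ))

/-- package OI: the oscillating integral (integrate by parts twice; `|w2| ≤ 120`, `w` and `w1`
vanish at `1` and `2`), and the mass of the bump (`w ≥ 1/4` on `[5/4, 9/5]`). -/
def S_OI : Prop := (∀ (x : ℝ) (N : ℕ), 1 ≤ x → 1 ≤ N →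
    ‖∫ u in x..(2 * x), ((w (u / x) : ℝ) : ℂ) * ex (u / (N : ℝ))‖ ≤ 4 * (N : ℝ) ^ 2 / x) ∧
  ∀ x : ℝ, 1 ≤ x → x / 10 ≤ ∫ u in x..(2 * x), w (u / x)

/-- package PH: the phase. `n = a + l q`, `l` an integer; `j q = 1 + t r`, so
`n / (r q) - n j / r = (a + l q) / (r q) - (a + l q) j / r = a / (r q) + l / r - a j / r -
l (1 + t r) / r = a / (r q) - a j / r - l t`. -/
def S_PH : Prop := ∀ (q a r n j : ℕ), 1 ≤ q → 1 ≤ r → n ≡ a [MOD q] → j * q ≡ 1 [MOD r] →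
  ex ((n : ℝ) / ((r * q : ℕ) : ℝ)) =
    ex ((a : ℝ) / ((r * q : ℕ) : ℝ) - ((a * j : ℕ) : ℝ) / r) * ex (((n * j : ℕ) : ℝ) / r)

/-- the sums over the class `a` modulo `q` with the nonprincipal characters modulo `r` -/
noncomputable def CR (x : ℝ) (q a M r : ℕ) : ℝ := open Classical in
  ∑ χ ∈ (univ : Finset (DirichletCharacter ℂ r)).erase 1,
    ‖∑ n ∈ (Icc 1 M).filter (fun n => n ≡ a [MOD q]),
      ((ArithmeticFunction.vonMangoldt n : ℝ) : ℂ) * (((w ((n : ℝ) / x) : ℝ) : ℂ) *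
        χ (n : ZMod r))‖

/-- package CG: expansion into characters modulo `r`. For `(n, r) = 1`
`e(n j / r) = (1 / (r - 1)) ∑_χ τ(χ⁻¹) χ(n j)`; the principal character has `τ = -1`, the other ones
`|τ| = √r` (see `EL.CE_expand` in `D0H44/EL/Ces.lean` and package EXP of project EM,
`D0H44/EM/Exp.lean`: `EM.expp`); the terms with `r ∣ n` contribute at most `log M` to each of the
two sums. -/
def S_CG : Prop := ∀ (x : ℝ) (q a M r j : ℕ), 1 ≤ x → 1 ≤ q → 1 ≤ M → r.Prime → j.Coprime r →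
  ‖∑ n ∈ (Icc 1 M).filter (fun n => n ≡ a [MOD q]),
      ((ArithmeticFunction.vonMangoldt n : ℝ) : ℂ) *
        (((w ((n : ℝ) / x) : ℝ) : ℂ) * ex (((n * j : ℕ) : ℝ) / r)) +
    ((1 / ((r : ℝ) - 1) * PP x a M q : ℝ) : ℂ)‖ ≤
  Real.sqrt r / ((r : ℝ) - 1) * CR x q a M r + 3 * Real.log M

/-- package DU: duality for one modulus and one class. Take phases `b r` with
`b r * ∫ = ‖∫‖`, Cauchy-Schwarz, and
`‖∑ b r gg‖ ^ 2 ≤ 2 (12 / x) ^ 2 ‖∑ b r e(u / (r q))‖ ^ 2 + 2 ‖∑ b' r e(u / (r q))‖ ^ 2`,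
`‖b' r‖ ≤ 2 π / (R q)`; for coefficients bounded by `1`
`∫_0^{2x} ‖∑ b r e(u / (r q))‖ ^ 2 ≤ |G| (2 x) + |G| ^ 2 4 R ^ 2 q`, because
`|1 / (r q) - 1 / (s q)| ≥ 1 / (4 R ^ 2 q)` for `r ≠ s` (`EL.ex_int_le`). As
`D0H52/EM/Nrm.lean` and `D0H52/EM/Dua.lean` (there also summed over `a`). -/
def S_DU : Prop := ∀ (q a R : ℕ) (G : Finset ℕ) (x : ℝ), 1 ≤ x → 1 ≤ q → 1 ≤ R →
  (∀ r ∈ G, R < r ∧ r ≤ 2 * R) →
  (∑ r ∈ G, ‖∫ u in x..(2 * x), ((Er q a u : ℝ) : ℂ) * gg x q r u‖) ^ 2 ≤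
    (∫ u in x..(2 * x), Er q a u ^ 2) * ((300 / x ^ 2 + 100 / ((R : ℝ) * q) ^ 2) *
      (G.card * (2 * x + G.card * (4 * (R : ℝ) ^ 2 * q))))

/-- package CQ: the class `a` modulo `q` by the characters modulo `q`. For a nonprincipal `χ` modulo
`r` the products `χ' χ` (`χ'` modulo `q`) are characters modulo `q r` with a conductor that does not
divide `q`; each comes from one primitive character `ψ` modulo `f ∣ q r`, `f ∤ q`, and the terms with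
`(n, q r) > 1` contribute at most `ω(q r) log M` (`sum_not_coprime`). Compare `D0H51/FR/CH.lean`. -/
def S_CQ : Prop := ∀ (x : ℝ) (q a M r : ℕ), 1 ≤ x → 1 ≤ q → 1 ≤ M → r.Prime → ¬ r ∣ q →
  a.Coprime q →
  CR x q a M r ≤ 1 / (Nat.totient q : ℝ) * ∑ f ∈ (q * r).divisors.filter (fun f => ¬ f ∣ q),
      ∑ ψ ∈ Prim f, ‖SS M (fun y => w (y / x)) f ψ‖ +
    r * ((q * r).primeFactors.card * Real.log M)

/-- package SM2: sums over moduli `q r` (compare `D0H81/FR/SM.lean`; now `R` may be smaller than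
`Q`). If `f ∣ q r`, `f ∤ q`, `r ∤ q` then `f = d r` with `d ∣ q`, `φ(q r) ≥ φ(f) φ(q / d)`; a given `f`
has at most `2 log (4 Q R)` prime factors `r ∈ G`; `∑_{m ≤ 2Q} 1 / φ(m) ≤ (1 + log 2Q) ^ 2`;
`1 / φ(f) ≤ 2 (1 + log f) / f`; then Abel summation over `R < f ≤ 4 Q R`. -/
def S_SM2 : Prop := ∀ (Q R : ℕ) (G : Finset ℕ) (X : ℕ → ℝ) (A B C : ℝ), 1 ≤ Q → 1 ≤ R →
  (∀ r ∈ G, r.Prime ∧ R < r ∧ r ≤ 2 * R) → (∀ f, 0 ≤ X f) → 0 ≤ A → 0 ≤ B → 0 ≤ C →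
  (∀ t : ℕ, R ≤ t → t ≤ 4 * Q * R → ∑ f ∈ Icc 2 t, X f ≤ A + B * t + C * (t : ℝ) ^ 2) →
  ∑ q ∈ Ioc Q (2 * Q), ∑ r ∈ G.filter (fun r => ¬ r ∣ q), 1 / (Nat.totient (q * r) : ℝ) *
    ∑ f ∈ (q * r).divisors.filter (fun f => ¬ f ∣ q), X f ≤
  400 * (1 + Real.log ((4 * Q * R : ℕ) : ℝ)) ^ 6 * (A / R + B + C * ((Q : ℝ) * R))

end Pool.Agent.D0H44.EC
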