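import Mathlib
import Pool.Agent.D0H44.EC.Stm

/-! One modulus and one class. -/

open Finset MeasureTheory

namespace Pool.Agent.D0H44.EC

open H343 (ex)
open Pool.Agent.H398R2.BV Pool.Agent.H410R2
open Pool.Agent.D0H44.EL
open Pool.Agent.D0H44.EM (ps Er)
open Pool.Agent.D0H44.FR

/-- the lower bound for one inner product -/
theorem T_low (hPD : S_PD) (hOI : S_OI) (hPH : S_PH) (hCG : S_CG) (x : ℝ) (q a M r : ℕ)
    (hx : 1 ≤ x) (hq : 1 ≤ q) (hM : 2 * x ≤ M) (hr : r.Prime) (hrq : ¬ r ∣ q) :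
    1 / ((r : ℝ) - 1) * PP x a M q - Real.sqrt r / ((r : ℝ) - 1) * CR x q a M r -
      3 * Real.log M - 4 * ((r : ℝ) * q) ^ 2 / x ≤
    ‖∫ u in x..(2 * x), ((Er q a u : ℝ) : ℂ) * gg x q r u‖ := by
  have hM1 : 1 ≤ M := by
    have : (1 : ℝ) ≤ M := by linarith
    exact_mod_cast this
  -- the inverse of `q`
  obtain ⟨j, hj⟩ : ∃ j : ℕ, j * q ≡ 1 [MOD r] := by
    have hco : q.Coprime r := ((Nat.Prime.coprime_iff_not_dvd hr).2 hrq).symm
    obtain ⟨m, hm⟩ := Nat.exists_mul_mod_eq_one_of_coprime hco hr.one_lt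
    refine ⟨m, ?_⟩
    rw [Nat.ModEq, mul_comm, hm.2, Nat.mod_eq_of_lt hr.one_lt]
  have hjr : j.Coprime r := by
    rw [Nat.coprime_comm, Nat.Prime.coprime_iff_not_dvd hr]
    intro hd
    have h1 : j * q ≡ 0 [MOD r] := (Nat.modEq_zero_iff_dvd).2 (Dvd.dvd.mul_right hd q)
    have h2 := hj.symm.trans h1
    have h3 := (Nat.modEq_zero_iff_dvd).1 h2
    exact hr.one_lt.ne' (Nat.dvd_one.1 h3)
  have h1 := hPD x q a r M hx hq hr.one_le hM
  set S := ∑ n ∈ (Icc 1 M).filter (fun n => n ≡ a [MOD q]),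
      ((ArithmeticFunction.vonMangoldt n : ℝ) : ℂ) *
        (((w ((n : ℝ) / x) : ℝ) : ℂ) * ex (((n * j : ℕ) : ℝ) / r)) with hS
  set θ := ex ((a : ℝ) / ((r * q : ℕ) : ℝ) - ((a * j : ℕ) : ℝ) / r) with hθ
  have hθ1 : ‖θ‖ = 1 := H343.Gauss.norm_ex _
  have h2 : ∑ n ∈ (Icc 1 M).filter (fun n => n ≡ a [MOD q]),
      ((ArithmeticFunction.vonMangoldt n : ℝ) : ℂ) *
        (((w ((n : ℝ) / x) : ℝ) : ℂ) * ex ((n : ℝ) / ((r * q : ℕ) : ℝ))) = θ * S := by
    rw [hS, mul_sum]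
    apply sum_congr rfl
    intro n hn
    rw [mem_filter] at hn
    rw [hPH q a r n j hq hr.one_le hn.2 hj, ← hθ]
    ring
  rw [h2] at h1
  have h3 := hCG x q a M r j hx hq hM1 hr hjr
  rw [← hS] at h3
  have h4 := hOI.1 x (r * q) hx (Nat.mul_pos hr.pos hq)
  set I := ∫ u in x..(2 * x), ((w (u / x) : ℝ) : ℂ) * ex (u / ((r * q : ℕ) : ℝ)) with hI
  rw [h1]
  have hr1 : (1 : ℝ) < r := by exact_mod_cast hr.one_lt
  have hφ : (1 : ℝ) ≤ Nat.totient q := by exact_mod_cast Nat.totient_pos.2 hq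
  have k1 : ‖(1 / (Nat.totient q : ℂ)) * I‖ ≤ 4 * ((r : ℝ) * q) ^ 2 / x := by
    rw [norm_mul, norm_div, norm_one, Complex.norm_natCast]
    push_cast at h4
    calc 1 / (Nat.totient q : ℝ) * ‖I‖ ≤ 1 * ‖I‖ := by
          apply mul_le_mul_of_nonneg_right _ (norm_nonneg _)
          rw [div_le_one (by linarith)]
          exact hφ
      _ = ‖I‖ := one_mul _
      _ ≤ _ := h4
  set P : ℝ := 1 / ((r : ℝ) - 1) * PP x a M q with hP
  have k2 : P ≤ ‖S + (P : ℂ)‖ + ‖S‖ := by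
    have e1 : (P : ℂ) = (S + (P : ℂ)) - S := by ring
    have h5 : P ≤ ‖(P : ℂ)‖ := by
      rw [Complex.norm_real, Real.norm_eq_abs]
      exact le_abs_self _
    refine h5.trans ?_
    conv_lhs => rw [e1]
    exact norm_sub_le _ _
  have k3 : ‖S‖ ≤ ‖-(θ * S) + (1 / (Nat.totient q : ℂ)) * I‖ +
      ‖(1 / (Nat.totient q : ℂ)) * I‖ := by
    have e2 : -(θ * S) = (-(θ * S) + (1 / (Nat.totient q : ℂ)) * I) -
        (1 / (Nat.totient q : ℂ)) * I := by ring
    have h6 : ‖S‖ = ‖-(θ * S)‖ := by rw [norm_neg, norm_mul, hθ1, one_mul]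
    rw [h6]
    conv_lhs => rw [e2]
    exact norm_sub_le _ _
  linarith

/-- one modulus, one class: if the sums over the characters are small, the variance is large -/
theorem core1 (hPD : S_PD) (hOI : S_OI) (hPH : S_PH) (hCG : S_CG) (hDU : S_DU)
    (hIB : S_IB) (hCS : S_CS) (x Lg : ℝ) (q a M R : ℕ) (G : Finset ℕ)
    (hx : 1 ≤ x) (hLg : 1 ≤ Lg) (hq : 1 ≤ q) (hR : 1 ≤ R) (hM : 2 * x ≤ M)
    (hlM : Real.log M ≤ 2 * Lg)
    (hG : ∀ r ∈ G, r.Prime ∧ R < r ∧ r ≤ 2 * R) (hGq : ∀ r ∈ G, ¬ r ∣ q)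
    (hGc : (R : ℝ) ≤ 4 * Lg * G.card) (hGR : (G.card : ℝ) ≤ R)
    (hRq : 2 * (R : ℝ) ^ 3 * q ≤ x) (hsz : 10 ^ 6 * Lg ^ 2 * (R : ℝ) ^ 2 * q ≤ x)
    (hsz2 : 10 ^ 6 * (R : ℝ) ^ 3 * (q : ℝ) ^ 3 ≤ x ^ 2)
    (hCR : ∑ r ∈ G, Real.sqrt r / ((r : ℝ) - 1) * CR x q a M r ≤
      G.card * x / (320 * R * (Nat.totient q : ℝ))) :
    (R : ℝ) * x ≤ 10 ^ 9 * Lg * ∫ u in x..(2 * x), Er q a u ^ 2 := by
  set V := ∫ u in x..(2 * x), Er q a u ^ 2 with hV
  have hx0 : 0 < x := by linarith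
  have hR0 : (1 : ℝ) ≤ R := by exact_mod_cast hR
  have hq0 : (1 : ℝ) ≤ q := by exact_mod_cast hq
  have hRpos : (0 : ℝ) < R := by linarith
  have hqpos : (0 : ℝ) < q := by linarith
  have hφ : (1 : ℝ) ≤ Nat.totient q := by exact_mod_cast Nat.totient_pos.2 hq
  have hφ0 : (0 : ℝ) < Nat.totient q := by linarith
  have hφq : (Nat.totient q : ℝ) ≤ q := by exact_mod_cast Nat.totient_le q
  have hg0 : (0 : ℝ) < G.card := by
    by_contra hc
    push Not at hc
    have : (4 : ℝ) * Lg * G.card ≤ 0 := mul_nonpos_of_nonneg_of_nonpos (by positivity) hc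
    linarith
  obtain ⟨φ, hφd⟩ : ∃ φ : ℝ, φ = (Nat.totient q : ℝ) := ⟨_, rfl⟩
  rw [← hφd] at hφ hφ0 hφq hCR
  set g : ℝ := (G.card : ℝ) with hg
  have hV0 : 0 ≤ V := by
    rw [hV]
    apply intervalIntegral.integral_nonneg (by linarith)
    intro u _
    positivity
  by_cases hPP : PP x a M q ≤ x / (20 * φ)
  · -- the class has too few primes
    have h1 := hIB x q a M hx hq hM
    have h2 := hOI.2 x hx
    have h3 := hCS x a {q} (fun _ => 1) hx (by simp [hq])
    simp only [sum_singleton, one_mul, one_pow] at h3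
    rw [h1, ← hφd, ← hV] at h3
    set W := ∫ u in x..(2 * x), w (u / x) with hW
    have h4 : x / (20 * φ) ≤ -PP x a M q + 1 / φ * W := by
      have h5 : x / (10 * φ) ≤ 1 / φ * W := by
        calc x / (10 * φ) = 1 / φ * (x / 10) := by first | (field_simp; done) | (field_simp; ring) | (field_simp; norm_num)
          _ ≤ _ := by gcongr
      have h6 : x / (10 * φ) = x / (20 * φ) + x / (20 * φ) := by
        first | (field_simp; done) | (field_simp; ring) | (field_simp; norm_num)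
      linarith
    have h7 : (x / (20 * φ)) ^ 2 ≤ V * (144 / x) := by
      refine le_trans ?_ h3
      gcongr
    have h8 : x ^ 3 ≤ 57600 * φ ^ 2 * V := by
      have h9 : (x / (20 * φ)) ^ 2 * (400 * φ ^ 2 * x) ≤ V * (144 / x) * (400 * φ ^ 2 * x) := by
        gcongr
      have e1 : (x / (20 * φ)) ^ 2 * (400 * φ ^ 2 * x) = x ^ 3 := by
        first | (field_simp; done) | (field_simp; ring) | (field_simp; norm_num)
      have e2 : V * (144 / x) * (400 * φ ^ 2 * x) = 57600 * φ ^ 2 * V := by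
        first | (field_simp; done) | (field_simp; ring) | (field_simp; norm_num)
      rw [e1, e2] at h9
      exact h9
    have h10 : (R : ℝ) * q ^ 2 ≤ x ^ 2 := by
      have h11 : (R : ℝ) * (q : ℝ) ^ 2 ≤ 10 ^ 6 * (R : ℝ) ^ 3 * (q : ℝ) ^ 3 := by
        have k1 : (R : ℝ) ≤ (R : ℝ) ^ 3 := by
          calc (R : ℝ) = (R : ℝ) ^ 1 := (pow_one _).symm
            _ ≤ _ := pow_le_pow_right₀ hR0 (by norm_num)
        have k2 : (q : ℝ) ^ 2 ≤ (q : ℝ) ^ 3 := pow_le_pow_right₀ hq0 (by norm_num)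
        have k3 : 0 ≤ (R : ℝ) ^ 3 * (q : ℝ) ^ 3 := by positivity
        calc (R : ℝ) * (q : ℝ) ^ 2 ≤ (R : ℝ) ^ 3 * (q : ℝ) ^ 3 := by gcongr
          _ ≤ _ := by nlinarith
      exact h11.trans hsz2
    have h12 : q ^ 2 * ((R : ℝ) * x) ≤ q ^ 2 * (57600 * V) := by
      calc (q : ℝ) ^ 2 * (R * x) = (R * q ^ 2) * x := by ring
        _ ≤ x ^ 2 * x := by gcongr
        _ = x ^ 3 := by ring
        _ ≤ 57600 * φ ^ 2 * V := h8
        _ ≤ 57600 * (q : ℝ) ^ 2 * V := by gcongr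
        _ = _ := by ring
    have h13 : (R : ℝ) * x ≤ 57600 * V := le_of_mul_le_mul_left h12 (by positivity)
    calc (R : ℝ) * x ≤ 57600 * V := h13
      _ ≤ (10 ^ 9 * Lg) * V := by
          gcongr
          linarith
      _ = _ := by ring
  · push Not at hPP
    have h1 : ∀ r ∈ G, x / (40 * R * φ) - Real.sqrt r / ((r : ℝ) - 1) * CR x q a M r -
        (6 * Lg + 16 * (R : ℝ) ^ 2 * q ^ 2 / x) ≤
        ‖∫ u in x..(2 * x), ((Er q a u : ℝ) : ℂ) * gg x q r u‖ := by
      intro r hr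
      obtain ⟨g1, g2, g3⟩ := hG r hr
      have h := T_low hPD hOI hPH hCG x q a M r hx hq hM g1 (hGq r hr)
      have g3' : (r : ℝ) ≤ 2 * R := by exact_mod_cast g3
      have g1' : (1 : ℝ) < r := by exact_mod_cast g1.one_lt
      have k1 : x / (40 * R * φ) ≤ 1 / ((r : ℝ) - 1) * PP x a M q := by
        have k2 : 1 / (2 * (R : ℝ)) ≤ 1 / ((r : ℝ) - 1) :=
          one_div_le_one_div_of_le (by linarith) (by linarith)
        calc x / (40 * R * φ) = 1 / (2 * (R : ℝ)) * (x / (20 * φ)) := by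
              first | (field_simp; done) | (field_simp; ring) | (field_simp; norm_num)
          _ ≤ 1 / ((r : ℝ) - 1) * PP x a M q := by
              apply mul_le_mul k2 hPP.le (by positivity)
              have : 0 < (r : ℝ) - 1 := by linarith
              positivity
      have k3 : 4 * ((r : ℝ) * q) ^ 2 / x ≤ 16 * (R : ℝ) ^ 2 * q ^ 2 / x := by
        have e : 16 * (R : ℝ) ^ 2 * (q : ℝ) ^ 2 = 4 * ((2 * (R : ℝ)) * q) ^ 2 := by ring
        rw [e]
        gcongr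
      linarith
    have h2 := sum_le_sum h1
    rw [sum_sub_distrib, sum_sub_distrib, sum_const, sum_const, nsmul_eq_mul, nsmul_eq_mul,
      ← hg] at h2
    set T := ∑ r ∈ G, ‖∫ u in x..(2 * x), ((Er q a u : ℝ) : ℂ) * gg x q r u‖ with hT
    -- the small terms
    have h3 : 6 * Lg + 16 * (R : ℝ) ^ 2 * q ^ 2 / x ≤ x / (160 * R * φ) := by
      have k1 : 6 * Lg ≤ x / (320 * R * φ) := by
        rw [le_div_iff₀ (by positivity)]
        calc 6 * Lg * (320 * R * φ) ≤ 6 * Lg * (320 * R * q) := by gcongr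
          _ = 1920 * (Lg * R * q) := by ring
          _ ≤ 1920 * (Lg ^ 2 * (R : ℝ) ^ 2 * q) := by
              have m1 : Lg ≤ Lg ^ 2 := by nlinarith
              have m2 : (R : ℝ) ≤ (R : ℝ) ^ 2 := by nlinarith
              gcongr
          _ ≤ 10 ^ 6 * (Lg ^ 2 * (R : ℝ) ^ 2 * q) := by
              gcongr
              norm_num
          _ = 10 ^ 6 * Lg ^ 2 * (R : ℝ) ^ 2 * q := by ring
          _ ≤ x := hsz
      have k2 : 16 * (R : ℝ) ^ 2 * q ^ 2 / x ≤ x / (320 * R * φ) := by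
        rw [div_le_div_iff₀ hx0 (by positivity)]
        calc 16 * (R : ℝ) ^ 2 * q ^ 2 * (320 * R * φ) ≤ 16 * (R : ℝ) ^ 2 * q ^ 2 * (320 * R * q) := by
              gcongr
          _ = 5120 * (R : ℝ) ^ 3 * (q : ℝ) ^ 3 := by ring
          _ ≤ 10 ^ 6 * (R : ℝ) ^ 3 * (q : ℝ) ^ 3 := by
              gcongr
              norm_num
          _ ≤ x ^ 2 := hsz2
          _ = x * x := by ring
      have e1 : x / (160 * R * φ) = x / (320 * R * φ) + x / (320 * R * φ) := by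
        first | (field_simp; done) | (field_simp; ring) | (field_simp; norm_num)
      linarith
    have h4 : g * x / (80 * R * φ) ≤ T := by
      have e1 : g * (x / (40 * R * φ)) = 8 * (g * x / (320 * R * φ)) := by
        first | (field_simp; done) | (field_simp; ring) | (field_simp; norm_num)
      have e2 : g * x / (80 * R * φ) = 4 * (g * x / (320 * R * φ)) := by
        first | (field_simp; done) | (field_simp; ring) | (field_simp; norm_num)
      have e3 : g * (x / (160 * R * φ)) = 2 * (g * x / (320 * R * φ)) := by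
        first | (field_simp; done) | (field_simp; ring) | (field_simp; norm_num)
      have h5 : g * (6 * Lg + 16 * (R : ℝ) ^ 2 * q ^ 2 / x) ≤ g * (x / (160 * R * φ)) := by
        gcongr
      rw [e2]
      rw [e1] at h2
      rw [e3] at h5
      have h6 : 0 ≤ g * x / (320 * R * φ) := by positivity
      linarith
    have h5 := hDU q a R G x hx hq hR (fun r hr => ⟨(hG r hr).2.1, (hG r hr).2.2⟩)
    rw [← hT, ← hV, ← hg] at h5
    have h6 : (300 / x ^ 2 + 100 / ((R : ℝ) * q) ^ 2) * (g * (2 * x + g * (4 * (R : ℝ) ^ 2 * q))) ≤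
        400 / ((R : ℝ) * q) ^ 2 * (g * (4 * x)) := by
      have hRqx : (R : ℝ) * q ≤ x := by
        calc (R : ℝ) * q ≤ 2 * (R : ℝ) ^ 3 * q := by
              gcongr
              calc (R : ℝ) = (R : ℝ) ^ 1 := (pow_one _).symm
                _ ≤ (R : ℝ) ^ 3 := pow_le_pow_right₀ hR0 (by norm_num)
                _ ≤ 2 * (R : ℝ) ^ 3 := by
                    have : 0 ≤ (R : ℝ) ^ 3 := by positivity
                    linarith
          _ ≤ x := hRq
      have k1 : 300 / x ^ 2 ≤ 300 / ((R : ℝ) * q) ^ 2 := by gcongr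
      have k2 : 300 / ((R : ℝ) * q) ^ 2 + 100 / ((R : ℝ) * q) ^ 2 = 400 / ((R : ℝ) * q) ^ 2 := by
        rw [← add_div]
        norm_num
      have k3 : g * (4 * (R : ℝ) ^ 2 * q) ≤ 2 * x := by
        calc g * (4 * (R : ℝ) ^ 2 * q) ≤ R * (4 * (R : ℝ) ^ 2 * q) := by gcongr
          _ = 2 * (2 * (R : ℝ) ^ 3 * q) := by ring
          _ ≤ 2 * x := by gcongr
      have k4 : g * (2 * x + g * (4 * (R : ℝ) ^ 2 * q)) ≤ g * (4 * x) := by
        gcongr
        linarith
      rw [← k2]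
      gcongr
    have h7 : (g * x / (80 * R * φ)) ^ 2 ≤ V * (400 / ((R : ℝ) * q) ^ 2 * (g * (4 * x))) := by
      calc (g * x / (80 * R * φ)) ^ 2 ≤ T ^ 2 := by gcongr
        _ ≤ V * ((300 / x ^ 2 + 100 / ((R : ℝ) * q) ^ 2) *
            (g * (2 * x + g * (4 * (R : ℝ) ^ 2 * q)))) := h5
        _ ≤ _ := by gcongr
    have h8 : g * x ≤ 10240000 * V := by
      have k1 : (g * x / (80 * R * q)) ^ 2 ≤ V * (400 / ((R : ℝ) * q) ^ 2 * (g * (4 * x))) := by
        refine le_trans ?_ h7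
        gcongr
      have k2 : (g * x / (80 * R * q)) ^ 2 * (6400 * (R * q) ^ 2) ≤
          V * (400 / ((R : ℝ) * q) ^ 2 * (g * (4 * x))) * (6400 * (R * q) ^ 2) := by gcongr
      have e1 : (g * x / (80 * R * q)) ^ 2 * (6400 * (R * q) ^ 2) = (g * x) * (g * x) := by
        first | (field_simp; done) | (field_simp; ring) | (field_simp; norm_num)
      have e2 : V * (400 / ((R : ℝ) * q) ^ 2 * (g * (4 * x))) * (6400 * (R * q) ^ 2) =
          (g * x) * (10240000 * V) := by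
        first | (field_simp; done) | (field_simp; ring) | (field_simp; norm_num)
      rw [e1, e2] at k2
      exact le_of_mul_le_mul_left k2 (by positivity)
    calc (R : ℝ) * x ≤ (4 * Lg * g) * x := by gcongr
      _ = 4 * Lg * (g * x) := by ring
      _ ≤ 4 * Lg * (10240000 * V) := by gcongr
      _ = (40960000 * Lg) * V := by ring
      _ ≤ (10 ^ 9 * Lg) * V := by
          gcongr
          norm_num
      _ = _ := by ring

end Pool.Agent.D0H44.EC
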