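import Mathlib
import Pool.Agent.D0H44.EC.Core

/-! The sums over the characters, and the exceptional moduli. -/

open Finset MeasureTheory

namespace Pool.Agent.D0H44.EC

open H343 (ex)
open Pool.Agent.H398R2.BV Pool.Agent.H410R2
open Pool.Agent.D0H44.EL
open Pool.Agent.D0H44.EM (ps Er)
open Pool.Agent.D0H44.FR

/-- partial summation for the bump -/
theorem SS_le (hW : S_W) (hPS : S_PS) (x : ℝ) (M : ℕ) (hx : 1 ≤ x) (hM : 2 * x ≤ M) (f : ℕ)
    (ψ : DirichletCharacter ℂ f) :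
    ‖SS M (fun y => w (y / x)) f ψ‖ ≤ 600 * FR.II (2 * x) f ψ := by
  obtain ⟨h1, h2, h3, h4, h5, h6, h7, h8⟩ := hW
  have hx0 : 0 < x := by linarith
  refine hPS (fun y => w (y / x)) (fun y => w1 (y / x) / x) (fun y => w2 (y / x) / x / x) 600
    (2 * x) M (by linarith) hM (by norm_num) ?_ ?_ ?_ ?_ ?_ f ψ
  · intro y
    have h := (h1 (y / x)).comp y ((hasDerivAt_id y).div_const x)
    have e : w1 (y / x) / x = w1 (y / x) * (1 / x) := by ring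
    rw [e]
    exact h
  · intro y
    have h := ((h2 (y / x)).comp y ((hasDerivAt_id y).div_const x)).div_const x
    have e : w2 (y / x) / x / x = w2 (y / x) * (1 / x) / x := by ring
    rw [e]
    exact h
  · exact ((h3.comp (continuous_id.div_const x)).div_const x).div_const x
  · intro y hy
    apply (h7 _ (Or.inr _)).1
    rw [le_div_iff₀ hx0]
    exact hy
  · intro y hy1 hy2
    have hy0 : 0 < y := by linarith
    have a1 := h5 (y / x)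
    have a2 := h6 (y / x)
    have b1 : |w1 (y / x) / x| ≤ 12 * 2 / y := by
      rw [abs_div, abs_of_pos hx0, div_le_div_iff₀ hx0 hy0]
      calc |w1 (y / x)| * y ≤ 12 * (2 * x) := by gcongr
        _ = _ := by ring
    have b2 : |y * (w2 (y / x) / x / x)| ≤ 120 * 4 / y := by
      have e : y * (w2 (y / x) / x / x) = w2 (y / x) * y / x ^ 2 := by
        field_simp
      rw [e, abs_div, abs_mul, abs_of_pos hy0, abs_of_pos (by positivity : 0 < x ^ 2),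
        div_le_div_iff₀ (by positivity) hy0]
      calc |w2 (y / x)| * y * y ≤ 120 * (2 * x) * (2 * x) := by gcongr
        _ = _ := by ring
    calc |w1 (y / x) / x + y * (w2 (y / x) / x / x)| ≤
        |w1 (y / x) / x| + |y * (w2 (y / x) / x / x)| := abs_add_le _ _
      _ ≤ 12 * 2 / y + 120 * 4 / y := add_le_add b1 b2
      _ = 504 / y := by ring
      _ ≤ 600 / y := by gcongr; norm_num

/-- the sums over the characters of conductor `f` -/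
noncomputable def XX (x : ℝ) (f : ℕ) : ℝ := ∑ ψ ∈ Prim f, 600 * FR.II (2 * x) f ψ

theorem XX_nonneg (x : ℝ) (hx : 1 ≤ x) (f : ℕ) : 0 ≤ XX x f := by
  unfold XX
  apply sum_nonneg
  intro ψ _
  have : 0 ≤ FR.II (2 * x) f ψ := by
    unfold FR.II
    apply intervalIntegral.integral_nonneg (by linarith)
    intro u hu
    have : 0 ≤ u := by linarith [hu.1]
    positivity
  positivity

/-- the bound with the parameter `U` of the identity of Vaughan -/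
theorem XX_sum (hIS : S_IS) (x L sY sU : ℝ) (U J : ℕ) (hx : 1 ≤ x) (hL1 : 1 ≤ L)
    (hLZ : L = 1 + Real.log (2 * x)) (hU : 1 ≤ U) (hJx : (J : ℝ) ≤ 2 * x)
    (hsY : Real.sqrt (2 * x) ≤ sY) (hsU : Real.sqrt (2 * x / U) ≤ sU) (j : ℕ) (hj1 : 1 ≤ j)
    (hjJ : j ≤ J) :
    ∑ f ∈ Icc 2 j, XX x f ≤ 7200 * (sY ^ 2 * L ^ 5) + 7200 * ((2 * sU + U) * sY * L ^ 5) * j +
      (4800 * (U * Real.sqrt J * L ^ 5) + 7200 * (sY * L ^ 5)) * (j : ℝ) ^ 2 := by
  have hj0 : (1 : ℝ) ≤ j := by exact_mod_cast hj1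
  have hjJ' : (j : ℝ) ≤ J := by exact_mod_cast hjJ
  have hU0 : (1 : ℝ) ≤ U := by exact_mod_cast hU
  have hlj : 1 + Real.log j ≤ L := by
    have := Real.log_le_log (by linarith) (hjJ'.trans hJx)
    linarith
  have hlj0 : 0 ≤ Real.log j := Real.log_nonneg hj0
  have hsj : Real.sqrt j ≤ Real.sqrt J := Real.sqrt_le_sqrt hjJ'
  have hsY0 : 0 ≤ sY := (Real.sqrt_nonneg _).trans hsY
  have hsU0 : 0 ≤ sU := (Real.sqrt_nonneg _).trans hsU
  set B : ℝ := (j : ℝ) ^ 2 * (8 * U * (Real.sqrt J * L) * L ^ 2) +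
    12 * (sY + j * (2 * sU + U) + (j : ℝ) ^ 2) * (sY * L ^ 4) with hB
  have key : ∀ y : ℝ, 1 ≤ y → y ≤ 2 * x → ∑ f ∈ Icc 2 j, ∑ ψ ∈ Prim f, ‖psiLog y f ψ‖ ≤ B := by
    intro y hy1 hyZ
    refine (eng y hy1 U j hU hj1).trans ?_
    have hly : Real.log y ≤ L := by
      have := Real.log_le_log (by linarith) hyZ
      linarith
    have hly1 : 1 + Real.log y ≤ L := by
      have := Real.log_le_log (by linarith) hyZ
      linarith
    have hly0 : 0 ≤ Real.log y := Real.log_nonneg hy1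
    have hsy : Real.sqrt y ≤ sY := (Real.sqrt_le_sqrt hyZ).trans hsY
    have hsyU : Real.sqrt (y / U) ≤ sU := by
      refine (Real.sqrt_le_sqrt ?_).trans hsU
      gcongr
    rw [hB]
    gcongr
  have h := hIS (Icc 2 j) (2 * x) B (by linarith) key
  have hlZ : Real.log (2 * x) ≤ L := by linarith
  have hlZ0 : 0 ≤ Real.log (2 * x) := Real.log_nonneg (by linarith)
  have hB0 : 0 ≤ B := by rw [hB]; positivity
  have h2 : ∑ f ∈ Icc 2 j, XX x f ≤ 600 * (B * L) := by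
    unfold XX
    simp_rw [← mul_sum]
    apply mul_le_mul_of_nonneg_left _ (by norm_num)
    exact h.trans (mul_le_mul_of_nonneg_left hlZ hB0)
  refine h2.trans ?_
  have e : 600 * (B * L) = 4800 * (U * Real.sqrt J * L ^ 4) * (j : ℝ) ^ 2 +
      7200 * (sY ^ 2 * L ^ 5) + 7200 * ((2 * sU + U) * sY * L ^ 5) * j +
      7200 * (sY * L ^ 5) * (j : ℝ) ^ 2 := by
    rw [hB]
    ring
  rw [e]
  have h3 : 4800 * (U * Real.sqrt J * L ^ 4) * (j : ℝ) ^ 2 ≤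
      4800 * (U * Real.sqrt J * L ^ 5) * (j : ℝ) ^ 2 := by
    gcongr
    norm_num
  linarith

/-- the sums over the characters for one modulus -/
noncomputable def DD (x : ℝ) (G : Finset ℕ) (q : ℕ) : ℝ :=
  ∑ r ∈ G.filter (fun r => ¬ r ∣ q), 1 / (Nat.totient (q * r) : ℝ) *
    ∑ f ∈ (q * r).divisors.filter (fun f => ¬ f ∣ q), XX x f

/-- the error in terms of `DD` -/
theorem CR_le (hW : S_W) (hPS : S_PS) (hCQ : S_CQ) (x Lg : ℝ) (q a M R : ℕ) (G : Finset ℕ)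
    (hx : 1 ≤ x) (hLg : 1 ≤ Lg) (hq : 1 ≤ q) (hR : 1 ≤ R) (hM : 2 * x ≤ M)
    (hlM : Real.log M ≤ 2 * Lg) (hlq : Real.log ((2 * R * q : ℕ) : ℝ) ≤ Lg)
    (hG : ∀ r ∈ G, r.Prime ∧ R < r ∧ r ≤ 2 * R) (ha : a.Coprime q) :
    ∑ r ∈ G.filter (fun r => ¬ r ∣ q), Real.sqrt r / ((r : ℝ) - 1) * CR x q a M r ≤
      2 * Real.sqrt R * DD x G q +
        (G.filter (fun r => ¬ r ∣ q)).card * (16 * (Lg ^ 2 * R)) := by
  have hM1 : 1 ≤ M := by
    have : (1 : ℝ) ≤ M := by linarith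
    exact_mod_cast this
  have hR0 : (1 : ℝ) ≤ R := by exact_mod_cast hR
  have hlM0 : 0 ≤ Real.log M := Real.log_natCast_nonneg M
  unfold DD
  rw [mul_sum, ← nsmul_eq_mul, ← sum_const, ← sum_add_distrib]
  apply sum_le_sum
  intro r hr
  rw [mem_filter] at hr
  obtain ⟨g1, g2, g3⟩ := hG r hr.1
  have h := hCQ x q a M r hx hq hM1 g1 hr.2 ha
  have h2 : ∑ f ∈ (q * r).divisors.filter (fun f => ¬ f ∣ q),
      ∑ ψ ∈ Prim f, ‖SS M (fun y => w (y / x)) f ψ‖ ≤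
      ∑ f ∈ (q * r).divisors.filter (fun f => ¬ f ∣ q), XX x f := by
    apply sum_le_sum
    intro f _
    unfold XX
    apply sum_le_sum
    intro ψ _
    exact SS_le hW hPS x M hx hM f ψ
  have hr1 : (2 : ℝ) ≤ r := by exact_mod_cast g1.two_le
  have g3' : (r : ℝ) ≤ 2 * R := by exact_mod_cast g3
  have hφ0 : (0 : ℝ) < Nat.totient q := by exact_mod_cast Nat.totient_pos.2 hq
  have hco : q.Coprime r := ((Nat.Prime.coprime_iff_not_dvd g1).2 hr.2).symm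
  have hφr : (Nat.totient (q * r) : ℝ) = Nat.totient q * ((r : ℝ) - 1) := by
    rw [Nat.totient_mul hco, Nat.totient_prime g1]
    push_cast
    rw [Nat.cast_sub g1.one_le]
    simp
  have hom : ((q * r).primeFactors.card : ℝ) ≤ 2 * Lg := by
    have h3 := omega_le_log (q * r) (Nat.mul_pos hq g1.pos)
    have h4 : Real.log ((q * r : ℕ) : ℝ) ≤ Real.log ((2 * R * q : ℕ) : ℝ) := by
      apply Real.log_le_log
      · exact_mod_cast Nat.mul_pos hq g1.pos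
      · have : q * r ≤ 2 * R * q := by
          calc q * r ≤ q * (2 * R) := Nat.mul_le_mul_left _ g3
            _ = 2 * R * q := by ring
        exact_mod_cast this
    linarith
  have hsr : Real.sqrt r ≤ 2 * Real.sqrt R := by
    rw [Real.sqrt_le_left (by positivity), mul_pow, Real.sq_sqrt (by linarith)]
    linarith
  have hsr0 : 0 ≤ Real.sqrt r := Real.sqrt_nonneg _
  set E := ∑ f ∈ (q * r).divisors.filter (fun f => ¬ f ∣ q), XX x f with hE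
  have hE0 : 0 ≤ E := sum_nonneg fun f _ => XX_nonneg x hx f
  have hr10 : 0 < (r : ℝ) - 1 := by linarith
  have h5 : CR x q a M r ≤ 1 / (Nat.totient q : ℝ) * E + r * (4 * Lg ^ 2) := by
    refine h.trans ?_
    have k1 : 1 / (Nat.totient q : ℝ) * ∑ f ∈ (q * r).divisors.filter (fun f => ¬ f ∣ q),
        ∑ ψ ∈ Prim f, ‖SS M (fun y => w (y / x)) f ψ‖ ≤ 1 / (Nat.totient q : ℝ) * E := by
      gcongr
    have k2 : (r : ℝ) * (((q * r).primeFactors.card : ℝ) * Real.log M) ≤ r * (4 * Lg ^ 2) := by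
      have : ((q * r).primeFactors.card : ℝ) * Real.log M ≤ (2 * Lg) * (2 * Lg) := by gcongr
      calc (r : ℝ) * (((q * r).primeFactors.card : ℝ) * Real.log M) ≤
          r * ((2 * Lg) * (2 * Lg)) := by gcongr
        _ = _ := by ring
    linarith
  calc Real.sqrt r / ((r : ℝ) - 1) * CR x q a M r ≤
      Real.sqrt r / ((r : ℝ) - 1) * (1 / (Nat.totient q : ℝ) * E + r * (4 * Lg ^ 2)) := by
        gcongr
    _ = Real.sqrt r * (1 / (Nat.totient (q * r) : ℝ) * E) +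
        (Real.sqrt r * (r / ((r : ℝ) - 1))) * (4 * Lg ^ 2) := by
        rw [hφr]
        field_simp
    _ ≤ 2 * Real.sqrt R * (1 / (Nat.totient (q * r) : ℝ) * E) + (2 * R * 2) * (4 * Lg ^ 2) := by
        have k3 : (r : ℝ) / ((r : ℝ) - 1) ≤ 2 := by
          rw [div_le_iff₀ hr10]
          linarith
        have k4 : Real.sqrt r ≤ 2 * R := by
          have h6 : Real.sqrt R ≤ R := by
            rw [Real.sqrt_le_left (by linarith)]
            nlinarith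
          linarith
        gcongr
    _ = _ := by ring

/-- the sum of the errors over the moduli -/
theorem DD_sum (hIS : S_IS) (hSM : S_SM2) (m Q R : ℕ) (G : Finset ℕ) (t Lg x : ℝ)
    (hm : 40 ≤ m) (hx : 1 ≤ x) (hZ : 2 * x = t ^ (6 * m)) (hLg1 : 1 ≤ Lg)
    (hLg : Lg = 1 + Real.log (2 * x)) (hLt : 10 ^ 6 * Lg ^ 6 ≤ t) (hQ : 1 ≤ Q)
    (hR1 : t ^ 10 ≤ R) (hR2 : (R : ℝ) ^ 3 * (Q : ℝ) ^ 2 * t ^ 36 ≤ 2 * x)
    (hG : ∀ r ∈ G, r.Prime ∧ R < r ∧ r ≤ 2 * R) :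
    Real.sqrt R * t ^ 3 * ∑ q ∈ Ioc Q (2 * Q), DD x G q ≤ x / 1000 := by
  have ht6 : (10 : ℝ) ^ 6 ≤ t := by
    have : (1 : ℝ) ≤ Lg ^ 6 := one_le_pow₀ hLg1
    linarith
  have ht1 : (1 : ℝ) ≤ t := by linarith
  have ht0 : 0 < t := by linarith
  have hQ0 : (1 : ℝ) ≤ Q := by exact_mod_cast hQ
  have hRr : (1 : ℝ) ≤ R := (one_le_pow₀ ht1).trans hR1
  have hRn : 1 ≤ R := by exact_mod_cast hRr
  obtain ⟨σ, hσ⟩ : ∃ σ : ℝ, σ = Real.sqrt R := ⟨_, rfl⟩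
  have hσ2 : σ ^ 2 = R := by rw [hσ, Real.sq_sqrt (by linarith)]
  have hσ5 : t ^ 5 ≤ σ := by
    rw [hσ]
    apply Real.le_sqrt_of_sq_le
    calc (t ^ 5) ^ 2 = t ^ 10 := by ring
      _ ≤ _ := hR1
  have hσ0 : 0 < σ := lt_of_lt_of_le (by positivity) hσ5
  have hσ1 : 1 ≤ σ := (one_le_pow₀ ht1).trans hσ5
  rw [← hσ]
  -- sizes
  have hY0 : 0 < t ^ (3 * m) := by positivity
  have hY2 : (t ^ (3 * m)) ^ 2 = 2 * x := by
    rw [hZ]
    ring
  have hσ3 : σ ^ 3 * Q * t ^ 18 ≤ t ^ (3 * m) := by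
    have h1 : (σ ^ 3 * Q * t ^ 18) ^ 2 ≤ (t ^ (3 * m)) ^ 2 := by
      calc (σ ^ 3 * Q * t ^ 18) ^ 2 = (σ ^ 2) ^ 3 * (Q : ℝ) ^ 2 * t ^ 36 := by ring
        _ = (R : ℝ) ^ 3 * (Q : ℝ) ^ 2 * t ^ 36 := by rw [hσ2]
        _ ≤ 2 * x := hR2
        _ = _ := hY2.symm
    exact (abs_le_of_sq_le_sq' h1 (by positivity)).2
  obtain ⟨U, hU1, hU2⟩ : ∃ U : ℕ, (R : ℝ) * t ^ 12 ≤ U ∧ (U : ℝ) ≤ 2 * (R * t ^ 12) := by
    refine ⟨⌈(R : ℝ) * t ^ 12⌉₊, Nat.le_ceil _, ?_⟩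
    have h1 := Nat.ceil_lt_add_one (by positivity : 0 ≤ (R : ℝ) * t ^ 12)
    have h2 : 1 ≤ (R : ℝ) * t ^ 12 := by
      have : (1 : ℝ) ≤ t ^ 12 := one_le_pow₀ ht1
      nlinarith
    linarith
  have hUr : (1 : ℝ) ≤ U := by
    refine le_trans ?_ hU1
    have : (1 : ℝ) ≤ t ^ 12 := one_le_pow₀ ht1
    nlinarith
  have hU : 1 ≤ U := by exact_mod_cast hUr
  obtain ⟨J, hJ⟩ : ∃ J : ℕ, J = 4 * Q * R := ⟨_, rfl⟩
  have hJr : (J : ℝ) = 4 * Q * R := by rw [hJ]; push_cast; ring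
  have hJx : (J : ℝ) ≤ 2 * x := by
    rw [hJr]
    calc 4 * (Q : ℝ) * R = 4 * 1 * (Q : ℝ) * R := by ring
      _ ≤ t ^ 36 * (R : ℝ) ^ 2 * (Q : ℝ) ^ 2 * R := by
          have k1 : (4 : ℝ) ≤ t ^ 36 := by
            calc (4 : ℝ) ≤ t := by linarith
              _ = t ^ 1 := (pow_one t).symm
              _ ≤ t ^ 36 := pow_le_pow_right₀ ht1 (by norm_num)
          have k2 : (1 : ℝ) ≤ (R : ℝ) ^ 2 := one_le_pow₀ hRr
          have k3 : (Q : ℝ) ≤ (Q : ℝ) ^ 2 := by nlinarith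
          gcongr
      _ = (R : ℝ) ^ 3 * (Q : ℝ) ^ 2 * t ^ 36 := by ring
      _ ≤ 2 * x := hR2
  have hsJ : Real.sqrt J ≤ 2 * (σ * Q) := by
    rw [Real.sqrt_le_left (by positivity), hJr, ← hσ2]
    calc 4 * (Q : ℝ) * σ ^ 2 ≤ 4 * (Q : ℝ) ^ 2 * σ ^ 2 := by
          have k3 : (Q : ℝ) ≤ (Q : ℝ) ^ 2 := by nlinarith
          gcongr
      _ = (2 * (σ * Q)) ^ 2 := by ring
  obtain ⟨P, hP⟩ : ∃ P : ℝ, P = t ^ (3 * m) := ⟨_, rfl⟩
  rw [← hP] at hY0 hY2 hσ3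
  have hP6 : t ^ (3 * m - 6) * t ^ 6 = P := by
    rw [hP, ← pow_add]
    congr 1
    omega
  have hsY : Real.sqrt (2 * x) ≤ P := by
    rw [Real.sqrt_le_left (by positivity), hY2]
  have hsU : Real.sqrt (2 * x / U) ≤ t ^ (3 * m - 6) / σ := by
    rw [Real.sqrt_le_left (by positivity), div_le_iff₀ (by linarith), div_pow, hσ2]
    calc 2 * x = (t ^ (3 * m - 6)) ^ 2 / R * (R * t ^ 12) := by
          rw [← hY2, ← hP6]
          field_simp
      _ ≤ (t ^ (3 * m - 6)) ^ 2 / R * U := by gcongr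
  have hlJ : 1 + Real.log ((4 * Q * R : ℕ) : ℝ) ≤ Lg := by
    have hJ1 : (1 : ℝ) ≤ ((4 * Q * R : ℕ) : ℝ) := by
      have : 1 ≤ 4 * Q * R := by
        calc 1 = 1 * 1 := rfl
          _ ≤ 4 * Q * R := Nat.mul_le_mul (by omega) hRn
      exact_mod_cast this
    have h1 : ((4 * Q * R : ℕ) : ℝ) ≤ 2 * x := by rw [← hJ]; exact hJx
    have := Real.log_le_log (by linarith) h1
    linarith
  have hlJ0 : 0 ≤ 1 + Real.log ((4 * Q * R : ℕ) : ℝ) := by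
    have := Real.log_natCast_nonneg (4 * Q * R)
    linarith
  have hsJ0 : 0 ≤ Real.sqrt J := Real.sqrt_nonneg _
  have h := hSM Q R G (XX x) (7200 * (P ^ 2 * Lg ^ 5))
    (7200 * ((2 * (t ^ (3 * m - 6) / σ) + U) * P * Lg ^ 5))
    (4800 * (U * Real.sqrt J * Lg ^ 5) + 7200 * (P * Lg ^ 5)) hQ hRn hG (XX_nonneg x hx)
    (by positivity) (by positivity) (by positivity)
    (fun j hj1 hj2 => XX_sum hIS x Lg P (t ^ (3 * m - 6) / σ) U J hx hLg1 hLg hU hJx hsY hsU j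
      (by omega) (by rw [hJ]; exact hj2))
  have hDD : ∑ q ∈ Ioc Q (2 * Q), DD x G q = ∑ q ∈ Ioc Q (2 * Q),
      ∑ r ∈ G.filter (fun r => ¬ r ∣ q), 1 / (Nat.totient (q * r) : ℝ) *
      ∑ f ∈ (q * r).divisors.filter (fun f => ¬ f ∣ q), XX x f := rfl
  rw [← hDD] at h
  -- the terms
  obtain ⟨E, hE⟩ : ∃ E : ℝ, E = P ^ 2 * Lg ^ 5 / t ^ 5 := ⟨_, rfl⟩
  have hE0 : 0 ≤ E := by rw [hE]; positivity
  have hσ3' : σ ^ 3 * Q ≤ P / t ^ 18 := by
    rw [le_div_iff₀ (by positivity)]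
    exact hσ3
  have hσ3'' : σ ^ 3 ≤ P / t ^ 18 := by
    refine le_trans ?_ hσ3'
    have : 0 < σ ^ 3 := by positivity
    nlinarith
  have t1 : σ * (7200 * (P ^ 2 * Lg ^ 5) / R) ≤ 7200 * E := by
    rw [← hσ2, hE]
    calc σ * (7200 * (P ^ 2 * Lg ^ 5) / σ ^ 2) = 7200 * (P ^ 2 * Lg ^ 5 / σ) := by field_simp
      _ ≤ 7200 * (P ^ 2 * Lg ^ 5 / t ^ 5) := by gcongr
  have t2 : σ * (7200 * ((2 * (t ^ (3 * m - 6) / σ) + U) * P * Lg ^ 5)) ≤ 28800 * E := by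
    have k1 : σ * U ≤ 2 * (P / t ^ 6) := by
      calc σ * U ≤ σ * (2 * (R * t ^ 12)) := by gcongr
        _ = 2 * (σ ^ 3 * t ^ 12) := by rw [← hσ2]; ring
        _ ≤ 2 * (P / t ^ 18 * t ^ 12) := by gcongr
        _ = 2 * (P / t ^ 6) := by field_simp
    have k2 : t ^ (3 * m - 6) = P / t ^ 6 := by
      rw [← hP6]
      field_simp
    have e1 : σ * (7200 * ((2 * (t ^ (3 * m - 6) / σ) + U) * P * Lg ^ 5)) =
        7200 * ((2 * t ^ (3 * m - 6) + σ * U) * P * Lg ^ 5) := by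
      field_simp
    rw [e1, k2, hE]
    calc 7200 * ((2 * (P / t ^ 6) + σ * U) * P * Lg ^ 5) ≤
        7200 * ((2 * (P / t ^ 6) + 2 * (P / t ^ 6)) * P * Lg ^ 5) := by gcongr
      _ = 28800 * (P ^ 2 * Lg ^ 5 / t ^ 6) := by ring
      _ ≤ 28800 * (P ^ 2 * Lg ^ 5 / t ^ 5) := by
          gcongr
          norm_num
  have t3 : σ * (4800 * (U * Real.sqrt J * Lg ^ 5) * ((Q : ℝ) * R)) ≤ 19200 * E := by
    calc σ * (4800 * (U * Real.sqrt J * Lg ^ 5) * ((Q : ℝ) * R)) ≤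
        σ * (4800 * ((2 * (R * t ^ 12)) * (2 * (σ * Q)) * Lg ^ 5) * ((Q : ℝ) * R)) := by gcongr
      _ = 19200 * ((σ ^ 3 * Q) ^ 2 * t ^ 12 * Lg ^ 5) := by rw [← hσ2]; ring
      _ ≤ 19200 * ((P / t ^ 18) ^ 2 * t ^ 12 * Lg ^ 5) := by gcongr
      _ = 19200 * (P ^ 2 * Lg ^ 5 / t ^ 24) := by field_simp
      _ ≤ 19200 * (P ^ 2 * Lg ^ 5 / t ^ 5) := by
          gcongr
          norm_num
      _ = 19200 * E := by rw [hE]
  have t4 : σ * (7200 * (P * Lg ^ 5) * ((Q : ℝ) * R)) ≤ 7200 * E := by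
    calc σ * (7200 * (P * Lg ^ 5) * ((Q : ℝ) * R)) = 7200 * ((σ ^ 3 * Q) * P * Lg ^ 5) := by
          rw [← hσ2]; ring
      _ ≤ 7200 * ((P / t ^ 18) * P * Lg ^ 5) := by gcongr
      _ = 7200 * (P ^ 2 * Lg ^ 5 / t ^ 18) := by ring
      _ ≤ 7200 * (P ^ 2 * Lg ^ 5 / t ^ 5) := by
          gcongr
          norm_num
      _ = 7200 * E := by rw [hE]
  have hDD0 : 0 ≤ ∑ q ∈ Ioc Q (2 * Q), DD x G q := by
    apply sum_nonneg
    intro q _
    unfold DD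
    apply sum_nonneg
    intro r _
    apply mul_nonneg (by positivity)
    exact sum_nonneg fun f _ => XX_nonneg x hx f
  have h5 : σ * ∑ q ∈ Ioc Q (2 * Q), DD x G q ≤ 400 * Lg ^ 6 * (62400 * E) := by
    calc σ * ∑ q ∈ Ioc Q (2 * Q), DD x G q ≤
        σ * (400 * Lg ^ 6 * (7200 * (P ^ 2 * Lg ^ 5) / R +
          7200 * ((2 * (t ^ (3 * m - 6) / σ) + U) * P * Lg ^ 5) +
          (4800 * (U * Real.sqrt J * Lg ^ 5) + 7200 * (P * Lg ^ 5)) * ((Q : ℝ) * R))) := by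
          apply mul_le_mul_of_nonneg_left _ hσ0.le
          refine h.trans ?_
          gcongr
      _ = 400 * Lg ^ 6 * (σ * (7200 * (P ^ 2 * Lg ^ 5) / R) +
          σ * (7200 * ((2 * (t ^ (3 * m - 6) / σ) + U) * P * Lg ^ 5)) +
          σ * (4800 * (U * Real.sqrt J * Lg ^ 5) * ((Q : ℝ) * R)) +
          σ * (7200 * (P * Lg ^ 5) * ((Q : ℝ) * R))) := by ring
      _ ≤ 400 * Lg ^ 6 * (7200 * E + 28800 * E + 19200 * E + 7200 * E) := by gcongr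
      _ = _ := by ring
  calc σ * t ^ 3 * ∑ q ∈ Ioc Q (2 * Q), DD x G q =
      t ^ 3 * (σ * ∑ q ∈ Ioc Q (2 * Q), DD x G q) := by ring
    _ ≤ t ^ 3 * (400 * Lg ^ 6 * (62400 * E)) := by gcongr
    _ = 24960000 * Lg ^ 11 * (P ^ 2 / t ^ 2) := by
        rw [hE]
        field_simp
        ring
    _ ≤ 24960000 * (t ^ 2 / 10 ^ 12) * (P ^ 2 / t ^ 2) := by
        gcongr
        rw [le_div_iff₀ (by norm_num)]
        calc Lg ^ 11 * 10 ^ 12 ≤ Lg ^ 12 * 10 ^ 12 := by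
              gcongr
              norm_num
          _ = (10 ^ 6 * Lg ^ 6) ^ 2 := by ring
          _ ≤ t ^ 2 := by gcongr
    _ = 24960000 / 10 ^ 12 * (2 * x) := by
        rw [← hY2]
        field_simp
    _ ≤ x / 1000 := by linarith

end Pool.Agent.D0H44.EC
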