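import Mathlib
import Pool.Agent.D0H44.EC.Avg
import Pool.Agent.D0H44.EM.Bb

/-! Almost all moduli, every class. -/

open Finset MeasureTheory

namespace Pool.Agent.D0H44.EC

open H343 (ex)
open Pool.Agent.H398R2.BV Pool.Agent.H410R2
open Pool.Agent.D0H44.EL
open Pool.Agent.D0H44.EM (ps Er)
open Pool.Agent.D0H44.FR

/-- a modulus with a small error, every class -/
theorem good_q (hW : S_W) (hPS : S_PS) (hPD : S_PD) (hOI : S_OI) (hPH : S_PH) (hCG : S_CG)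
    (hDU : S_DU) (hIB : S_IB) (hCS : S_CS) (hCQ : S_CQ) (x Lg t : ℝ) (q a R : ℕ) (G : Finset ℕ)
    (hLg1 : 1 ≤ Lg) (hLg : Lg = 1 + Real.log (2 * x)) (hLt : 10 ^ 6 * Lg ^ 6 ≤ t)
    (hx : t ≤ x) (hq : 1 ≤ q) (hR : 1 ≤ R) (ha : a.Coprime q)
    (hG : ∀ r ∈ G, r.Prime ∧ R < r ∧ r ≤ 2 * R)
    (hGc : (R : ℝ) ≤ 4 * Lg * (G.filter (fun r => ¬ r ∣ q)).card)
    (hsz : 2 * (R : ℝ) ^ 3 * q * t ≤ x) (hsz2 : (R : ℝ) ^ 3 * (q : ℝ) ^ 3 * t ≤ x ^ 2)
    (hDD : (Nat.totient q : ℝ) * (Real.sqrt R * t * DD x G q) ≤ x) :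
    (R : ℝ) * x ≤ 10 ^ 9 * Lg * ∫ u in x..(2 * x), Er q a u ^ 2 := by
  have ht6 : (10 : ℝ) ^ 6 ≤ t := by
    have : (1 : ℝ) ≤ Lg ^ 6 := one_le_pow₀ hLg1
    linarith
  have ht1 : (1 : ℝ) ≤ t := by linarith
  have ht0 : 0 < t := by linarith
  have hx1 : 1 ≤ x := by linarith
  have hx0 : 0 < x := by linarith
  have hR0 : (1 : ℝ) ≤ R := by exact_mod_cast hR
  have hq0 : (1 : ℝ) ≤ q := by exact_mod_cast hq
  obtain ⟨M, hMd⟩ : ∃ M : ℕ, M = ⌈2 * x⌉₊ := ⟨_, rfl⟩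
  have hM : 2 * x ≤ M := by rw [hMd]; exact Nat.le_ceil _
  have hM2 : (M : ℝ) ≤ 2 * x + 1 := by
    rw [hMd]; exact (Nat.ceil_lt_add_one (by linarith)).le
  have hM1 : (1 : ℝ) ≤ M := by linarith
  have hlogM : Real.log M ≤ 2 * Lg := by
    have h1 : Real.log M ≤ Real.log (2 * x * (2 * x)) := by
      apply Real.log_le_log (by linarith)
      nlinarith
    rw [Real.log_mul (by linarith) (by linarith)] at h1
    linarith
  set G' := G.filter (fun r => ¬ r ∣ q) with hG'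
  have hGm : ∀ r ∈ G', r.Prime ∧ R < r ∧ r ≤ 2 * R := by
    intro r hr
    rw [hG', mem_filter] at hr
    exact hG r hr.1
  have hGq : ∀ r ∈ G', ¬ r ∣ q := by
    intro r hr
    rw [hG', mem_filter] at hr
    exact hr.2
  have hGR : (G'.card : ℝ) ≤ R := by
    have h1 : G' ⊆ Ioc R (2 * R) := by
      intro r hr
      rw [mem_Ioc]
      exact ⟨(hGm r hr).2.1, (hGm r hr).2.2⟩
    have h2 := card_le_card h1
    rw [Nat.card_Ioc] at h2
    have : G'.card ≤ R := by omega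
    exact_mod_cast this
  have hRR : (R : ℝ) ≤ (R : ℝ) ^ 3 := by
    calc (R : ℝ) = (R : ℝ) ^ 1 := (pow_one _).symm
      _ ≤ _ := pow_le_pow_right₀ hR0 (by norm_num)
  have hRR2 : (R : ℝ) ^ 2 ≤ (R : ℝ) ^ 3 := pow_le_pow_right₀ hR0 (by norm_num)
  have hR3 : 0 ≤ (R : ℝ) ^ 3 := by positivity
  have hlq : Real.log ((2 * R * q : ℕ) : ℝ) ≤ Lg := by
    have h0 : (0 : ℝ) < ((2 * R * q : ℕ) : ℝ) := by
      have : 0 < 2 * R * q := Nat.mul_pos (by omega) hq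
      exact_mod_cast this
    have h1 : ((2 * R * q : ℕ) : ℝ) ≤ 2 * x := by
      push_cast
      calc 2 * (R : ℝ) * q = 2 * R * q * 1 := (mul_one _).symm
        _ ≤ 2 * (R : ℝ) ^ 3 * q * t := by gcongr
        _ ≤ x := hsz
        _ ≤ 2 * x := by linarith
    have := Real.log_le_log h0 h1
    linarith
  have hCR := CR_le hW hPS hCQ x Lg q a M R G hx1 hLg1 hq hR hM hlogM hlq hG ha
  rw [← hG'] at hCR
  have hLg2 : Lg ^ 2 ≤ Lg ^ 6 := pow_le_pow_right₀ hLg1 (by norm_num)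
  have hLg12 : Lg ≤ Lg ^ 2 := by nlinarith
  have hLg20 : 0 ≤ Lg ^ 2 := by positivity
  have hLgt : 10 ^ 6 * Lg ^ 2 ≤ t := by linarith
  have c1 : 10 ^ 6 * Lg ^ 2 * (R : ℝ) ^ 2 * q ≤ x := by
    calc 10 ^ 6 * Lg ^ 2 * (R : ℝ) ^ 2 * q ≤ t * (R : ℝ) ^ 3 * q := by gcongr
      _ ≤ 2 * (R : ℝ) ^ 3 * q * t := by
          have : 0 ≤ t * (R : ℝ) ^ 3 * q := by positivity
          linarith
      _ ≤ x := hsz
  refine core1 hPD hOI hPH hCG hDU hIB hCS x Lg q a M R G' hx1 hLg1 hq hR hM hlogM hGm hGq hGc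
    hGR ?_ c1 ?_ ?_
  · calc 2 * (R : ℝ) ^ 3 * q = 2 * (R : ℝ) ^ 3 * q * 1 := (mul_one _).symm
      _ ≤ 2 * (R : ℝ) ^ 3 * q * t := by gcongr
      _ ≤ x := hsz
  · calc 10 ^ 6 * (R : ℝ) ^ 3 * (q : ℝ) ^ 3 ≤ t * (R : ℝ) ^ 3 * (q : ℝ) ^ 3 := by gcongr
      _ = (R : ℝ) ^ 3 * (q : ℝ) ^ 3 * t := by ring
      _ ≤ x ^ 2 := hsz2
  · refine hCR.trans ?_
    obtain ⟨φ, hφ⟩ : ∃ φ : ℝ, φ = (Nat.totient q : ℝ) := ⟨_, rfl⟩
    have hφ0 : 0 < φ := by rw [hφ]; exact_mod_cast Nat.totient_pos.2 hq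
    have hφq : φ ≤ q := by rw [hφ]; exact_mod_cast Nat.totient_le q
    rw [← hφ] at hDD ⊢
    set g : ℝ := (G'.card : ℝ) with hg
    have hg0 : 0 < g := by
      by_contra hc
      push Not at hc
      have : (4 : ℝ) * Lg * g ≤ 0 := mul_nonpos_of_nonneg_of_nonpos (by positivity) hc
      linarith
    have e : g * x / (320 * R * φ) = g * x / (640 * R * φ) + g * x / (640 * R * φ) := by
      first | (field_simp; done) | (field_simp; ring)
    rw [e]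
    apply add_le_add
    · rw [le_div_iff₀ (by positivity)]
      calc 2 * Real.sqrt R * DD x G q * (640 * R * φ) =
          1280 * R * (φ * (Real.sqrt R * t * DD x G q)) / t := by
            field_simp
            ring
        _ ≤ 1280 * R * x / t := by gcongr
        _ ≤ 1280 * (4 * Lg * g) * x / t := by gcongr
        _ = (5120 * Lg) * (g * x) / t := by ring
        _ ≤ t * (g * x) / t := by
            gcongr
            linarith
        _ = g * x := by field_simp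
    · rw [le_div_iff₀ (by positivity)]
      calc g * (16 * (Lg ^ 2 * R)) * (640 * R * φ) ≤ g * (16 * (Lg ^ 2 * R)) * (640 * R * q) := by
            gcongr
        _ = g * (10240 * Lg ^ 2 * (R : ℝ) ^ 2 * q) := by ring
        _ ≤ g * (10 ^ 6 * Lg ^ 2 * (R : ℝ) ^ 2 * q) := by
            gcongr
            norm_num
        _ ≤ g * x := by gcongr

/-- almost all moduli -/
theorem thA (hW : S_W) (hPS : S_PS) (hIS : S_IS) (hPD : S_PD) (hOI : S_OI) (hPH : S_PH)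
    (hCG : S_CG) (hDU : S_DU) (hIB : S_IB) (hCS : S_CS) (hCQ : S_CQ) (hSM : S_SM2) :
    ∃ C : ℝ, 1 ≤ C ∧ ∀ (m Q R : ℕ) (t Lg x : ℝ), 40 ≤ m → 2 * x = t ^ (6 * m) →
    Lg = 1 + Real.log (2 * x) → 10 ^ 6 * Lg ^ 6 ≤ t → C ≤ t → 1 ≤ Q → t ^ 10 ≤ R →
    (R : ℝ) ^ 3 * (Q : ℝ) ^ 2 * t ^ 36 ≤ 2 * x →
    ∃ E : Finset ℕ, (E.card : ℝ) * t ^ 2 ≤ Q ∧ ∀ q : ℕ, Q < q → q ≤ 2 * Q → q ∉ E →
      ∀ a : ℕ, a.Coprime q →
      (R : ℝ) * x ≤ 10 ^ 9 * Lg * ∫ u in x..(2 * x), Er q a u ^ 2 := by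
  obtain ⟨R₀, hR₀, hcnt⟩ := EM.cnt
  refine ⟨max 1 R₀, le_max_left _ _, ?_⟩
  intro m Q R t Lg x hm hZ hLg hLt hC hQ hR1 hR2
  have ht1 : (1 : ℝ) ≤ t := (le_max_left _ _).trans hC
  have hCR : (R₀ : ℝ) ≤ t := (le_max_right _ _).trans hC
  have ht0 : 0 < t := by linarith
  have h2x1 : 1 ≤ 2 * x := by rw [hZ]; exact one_le_pow₀ ht1
  have hLg1 : 1 ≤ Lg := by
    have := Real.log_nonneg h2x1
    linarith
  have ht6 : (10 : ℝ) ^ 6 ≤ t := by
    have : (1 : ℝ) ≤ Lg ^ 6 := one_le_pow₀ hLg1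
    linarith
  have htx : t ≤ x := by
    have h1 : t ^ 2 ≤ 2 * x := by
      rw [hZ]
      exact pow_le_pow_right₀ ht1 (by omega)
    nlinarith
  have hx1 : 1 ≤ x := by linarith
  have hx0 : 0 < x := by linarith
  have hQ0 : (1 : ℝ) ≤ Q := by exact_mod_cast hQ
  have hRr : (1 : ℝ) ≤ R := (one_le_pow₀ ht1).trans hR1
  have hRn : 1 ≤ R := by exact_mod_cast hRr
  have htR : t ≤ R := by
    refine le_trans ?_ hR1
    calc t = t ^ 1 := (pow_one t).symm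
      _ ≤ _ := pow_le_pow_right₀ ht1 (by norm_num)
  have hRR₀ : R₀ ≤ R := by
    have : (R₀ : ℝ) ≤ R := hCR.trans htR
    exact_mod_cast this
  have hQx : (Q : ℝ) ≤ 2 * x := by
    calc (Q : ℝ) = 1 * Q * 1 := by ring
      _ ≤ (R : ℝ) ^ 3 * (Q : ℝ) ^ 2 * t ^ 36 := by
          have k1 : (1 : ℝ) ≤ (R : ℝ) ^ 3 := one_le_pow₀ hRr
          have k2 : (Q : ℝ) ≤ (Q : ℝ) ^ 2 := by nlinarith
          have k3 : (1 : ℝ) ≤ t ^ 36 := one_le_pow₀ ht1
          gcongr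
      _ ≤ 2 * x := hR2
  have ht35 : 64 * t ≤ t ^ 36 / t := by
    rw [le_div_iff₀ ht0]
    calc 64 * t * t ≤ t * t * t := by
          have : (64 : ℝ) ≤ t := by linarith
          gcongr
      _ = t ^ 3 := by ring
      _ ≤ t ^ 36 := pow_le_pow_right₀ ht1 (by norm_num)
  have hRQ : (R : ℝ) ^ 3 * (Q : ℝ) ^ 2 * t * (64 * t) ≤ 2 * x := by
    refine le_trans ?_ hR2
    calc (R : ℝ) ^ 3 * (Q : ℝ) ^ 2 * t * (64 * t) ≤
        (R : ℝ) ^ 3 * (Q : ℝ) ^ 2 * t * (t ^ 36 / t) := by gcongr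
      _ = _ := by field_simp
  set G := (Ioc R (2 * R)).filter Nat.Prime with hG
  have hGm : ∀ r ∈ G, r.Prime ∧ R < r ∧ r ≤ 2 * R := by
    intro r hr
    rw [hG, mem_filter, mem_Ioc] at hr
    exact ⟨hr.2, hr.1.1, hr.1.2⟩
  have hDs := DD_sum hIS hSM m Q R G t Lg x hm hx1 hZ hLg1 hLg hLt hQ hR1 hR2 hGm
  have hDD0 : ∀ q, 0 ≤ DD x G q := by
    intro q
    unfold DD
    apply sum_nonneg
    intro r _
    apply mul_nonneg (by positivity)
    exact sum_nonneg fun f _ => XX_nonneg x hx1 f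
  set E := (Ioc Q (2 * Q)).filter
    (fun q => x < (Nat.totient q : ℝ) * (Real.sqrt R * t * DD x G q)) with hE
  refine ⟨E, ?_, ?_⟩
  · have h1 : (E.card : ℝ) * x ≤ ∑ q ∈ Ioc Q (2 * Q), 2 * Q * (Real.sqrt R * t * DD x G q) := by
      calc (E.card : ℝ) * x = ∑ _q ∈ E, x := by rw [sum_const, nsmul_eq_mul]
        _ ≤ ∑ q ∈ E, 2 * Q * (Real.sqrt R * t * DD x G q) := by
            apply sum_le_sum
            intro q hq
            rw [hE, mem_filter, mem_Ioc] at hq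
            refine hq.2.le.trans ?_
            have k1 : (Nat.totient q : ℝ) ≤ 2 * Q := by
              have : Nat.totient q ≤ 2 * Q := (Nat.totient_le q).trans hq.1.2
              exact_mod_cast this
            have k2 : 0 ≤ Real.sqrt R * t * DD x G q := by
              have := hDD0 q
              positivity
            gcongr
        _ ≤ _ := by
            apply sum_le_sum_of_subset_of_nonneg (filter_subset _ _)
            intro q _ _
            have := hDD0 q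
            positivity
    rw [← mul_sum, ← mul_sum] at h1
    have h2 : (E.card : ℝ) * t ^ 2 * x ≤ Q * x := by
      calc (E.card : ℝ) * t ^ 2 * x = (E.card : ℝ) * x * t ^ 2 := by ring
        _ ≤ 2 * Q * (Real.sqrt R * t * ∑ q ∈ Ioc Q (2 * Q), DD x G q) * t ^ 2 := by gcongr
        _ = 2 * Q * (Real.sqrt R * t ^ 3 * ∑ q ∈ Ioc Q (2 * Q), DD x G q) := by ring
        _ ≤ 2 * Q * (x / 1000) := by gcongr
        _ = (Q * x) * (1 / 500) := by ring
        _ ≤ (Q * x) * 1 := by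
            gcongr
            norm_num
        _ = Q * x := mul_one _
    exact le_of_mul_le_mul_right h2 hx0
  · intro q hq1 hq2 hqE a ha
    have hq : 1 ≤ q := by omega
    have hqr : (q : ℝ) ≤ 2 * Q := by exact_mod_cast hq2
    have hq0 : (1 : ℝ) ≤ q := by exact_mod_cast hq
    have h2Q : 2 * (Q : ℝ) ≤ 2 * x := by
      calc 2 * (Q : ℝ) ≤ (R : ℝ) ^ 3 * (Q : ℝ) ^ 2 * t * (64 * t) := by
            calc 2 * (Q : ℝ) = 1 * Q * 1 * 2 := by ring
              _ ≤ (R : ℝ) ^ 3 * (Q : ℝ) ^ 2 * t * (64 * t) := by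
                  have k1 : (1 : ℝ) ≤ (R : ℝ) ^ 3 := one_le_pow₀ hRr
                  have k2 : (Q : ℝ) ≤ (Q : ℝ) ^ 2 := by nlinarith
                  have k3 : (2 : ℝ) ≤ 64 * t := by linarith
                  gcongr
        _ ≤ 2 * x := hRQ
    have hlq : 1 + Real.log q ≤ Lg := by
      have := Real.log_le_log (by linarith) (hqr.trans h2Q)
      linarith
    have hl2R : 1 + Real.log (2 * R) ≤ Lg := by
      have h2R : 2 * (R : ℝ) ≤ 2 * x := by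
        calc 2 * (R : ℝ) = 2 * R * 1 * 1 := by ring
          _ ≤ (64 * t) * (R : ℝ) ^ 3 * (Q : ℝ) ^ 2 * t := by
              have k1 : (R : ℝ) ≤ (R : ℝ) ^ 3 := by
                calc (R : ℝ) = (R : ℝ) ^ 1 := (pow_one _).symm
                  _ ≤ _ := pow_le_pow_right₀ hRr (by norm_num)
              have k2 : (1 : ℝ) ≤ (Q : ℝ) ^ 2 := one_le_pow₀ hQ0
              have k3 : (2 : ℝ) ≤ 64 * t := by linarith
              gcongr
          _ = (R : ℝ) ^ 3 * (Q : ℝ) ^ 2 * t * (64 * t) := by ring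
          _ ≤ 2 * x := hRQ
      have := Real.log_le_log (by linarith) h2R
      linarith
    have hLg2 : Lg ^ 2 ≤ Lg ^ 6 := pow_le_pow_right₀ hLg1 (by norm_num)
    have hLg60 : 0 ≤ Lg ^ 6 := by positivity
    have hc := hcnt R q Lg hRR₀ hq hl2R hlq (by linarith)
    rw [div_le_iff₀ (by positivity)] at hc
    have hfil : G.filter (fun r => ¬ r ∣ q) =
        (Ioc R (2 * R)).filter (fun r : ℕ => r.Prime ∧ ¬ r ∣ q) := by
      rw [hG, filter_filter]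
    have hDq : (Nat.totient q : ℝ) * (Real.sqrt R * t * DD x G q) ≤ x := by
      by_contra hcon
      push Not at hcon
      apply hqE
      rw [hE, mem_filter, mem_Ioc]
      exact ⟨⟨hq1, hq2⟩, hcon⟩
    refine good_q hW hPS hPD hOI hPH hCG hDU hIB hCS hCQ x Lg t q a R G hLg1 hLg hLt htx hq
      hRn ha hGm ?_ ?_ ?_ hDq
    · rw [hfil]
      linarith
    · calc 2 * (R : ℝ) ^ 3 * q * t ≤ 2 * (R : ℝ) ^ 3 * (2 * Q) * t := by gcongr
        _ = (R : ℝ) ^ 3 * Q * t * 4 := by ring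
        _ ≤ (R : ℝ) ^ 3 * (Q : ℝ) ^ 2 * t * (64 * t) / 2 := by
            have k2 : (Q : ℝ) ≤ (Q : ℝ) ^ 2 := by nlinarith
            have k3 : (4 : ℝ) ≤ 64 * t / 2 := by linarith
            calc (R : ℝ) ^ 3 * Q * t * 4 ≤ (R : ℝ) ^ 3 * (Q : ℝ) ^ 2 * t * (64 * t / 2) := by
                  gcongr
              _ = _ := by ring
        _ ≤ x := by linarith
    · calc (R : ℝ) ^ 3 * (q : ℝ) ^ 3 * t ≤ (R : ℝ) ^ 3 * (2 * (Q : ℝ)) ^ 3 * t := by gcongr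
        _ = ((R : ℝ) ^ 3 * (Q : ℝ) ^ 2 * t * 8) * Q := by ring
        _ ≤ ((R : ℝ) ^ 3 * (Q : ℝ) ^ 2 * t * (64 * t) / 8) * (2 * x) := by
            have k3 : (8 : ℝ) ≤ 64 * t / 8 := by linarith
            have k4 : (R : ℝ) ^ 3 * (Q : ℝ) ^ 2 * t * 8 ≤
                (R : ℝ) ^ 3 * (Q : ℝ) ^ 2 * t * (64 * t) / 8 := by
              calc (R : ℝ) ^ 3 * (Q : ℝ) ^ 2 * t * 8 ≤
                  (R : ℝ) ^ 3 * (Q : ℝ) ^ 2 * t * (64 * t / 8) := by gcongr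
                _ = _ := by ring
            gcongr
        _ ≤ (2 * x / 8) * (2 * x) := by gcongr
        _ ≤ x ^ 2 := by nlinarith

end Pool.Agent.D0H44.EC
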