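import Mathlib
import Pool.Agent.D0H44.EC.ThA

/-! Almost all moduli, every class: the final form. -/

open Finset MeasureTheory Filter

namespace Pool.Agent.D0H44.EC

open Pool.Agent.D0H44.EM (ps Er)
open Pool.Agent.D0H44.FR

/-- the parameter `t = (2 x) ^ (1 / N)` for large `x` -/
theorem small_t (ε C : ℝ) (hε : 0 < ε) : ∃ m : ℕ, 40 ≤ m ∧ ∃ x₀ : ℝ, 100 ≤ x₀ ∧ ∀ x : ℝ, x₀ ≤ x →
    ∃ t : ℝ, 2 * x = t ^ (6 * m) ∧ 10 ^ 6 * (1 + Real.log (2 * x)) ^ 6 ≤ t ∧ C ≤ t ∧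
      t ^ 40 ≤ x ^ ε ∧ x ^ (1 / (12 * (m : ℝ))) ≤ t := by
  obtain ⟨n, hn⟩ := exists_nat_gt (20 / ε)
  obtain ⟨m, hmd⟩ : ∃ m : ℕ, m = 40 + n := ⟨_, rfl⟩
  have hm : 40 ≤ m := by omega
  refine ⟨m, hm, ?_⟩
  obtain ⟨N, hN⟩ : ∃ N : ℕ, N = 6 * m := ⟨_, rfl⟩
  have hN0 : N ≠ 0 := by omega
  have hNr : (0 : ℝ) < N := by positivity
  have hNε : 80 ≤ ε * N := by
    have h1 : 6 * (n : ℝ) ≤ N := by
      have : 6 * n ≤ N := by omega
      exact_mod_cast this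
    rw [div_lt_iff₀ hε] at hn
    nlinarith
  have ht1 : Tendsto (fun X : ℝ => X ^ ((N : ℝ)⁻¹)) atTop atTop :=
    tendsto_rpow_atTop (by positivity)
  have ht2 : ∀ᶠ X : ℝ in atTop, 10 ^ 6 * (1 + Real.log X) ^ 6 ≤ X ^ ((N : ℝ)⁻¹) := by
    have h := (isLittleO_log_rpow_atTop (by positivity : (0 : ℝ) < (N : ℝ)⁻¹ / 6)).bound
      (by norm_num : (0 : ℝ) < 1 / 20)
    filter_upwards [h, eventually_ge_atTop (Real.exp 1)] with X hX hX1
    have hX0 : 0 < X := (Real.exp_pos 1).trans_le hX1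
    have hl : 1 ≤ Real.log X := by rwa [Real.le_log_iff_exp_le hX0]
    rw [Real.norm_of_nonneg (by linarith), Real.norm_of_nonneg (by positivity)] at hX
    have h1 : 1 + Real.log X ≤ 1 / 10 * X ^ ((N : ℝ)⁻¹ / 6) := by linarith
    calc 10 ^ 6 * (1 + Real.log X) ^ 6 ≤ 10 ^ 6 * (1 / 10 * X ^ ((N : ℝ)⁻¹ / 6)) ^ 6 := by
          gcongr
      _ = (X ^ ((N : ℝ)⁻¹ / 6)) ^ 6 := by ring
      _ = X ^ ((N : ℝ)⁻¹) := by
          rw [← Real.rpow_natCast, ← Real.rpow_mul hX0.le]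
          congr 1
          push_cast
          ring
  obtain ⟨X₁, hX₁⟩ := eventually_atTop.1 ((ht1.eventually_ge_atTop C).and ht2)
  refine ⟨max X₁ 100, le_max_right _ _, fun x hx => ?_⟩
  have hx1 : X₁ ≤ x := (le_max_left _ _).trans hx
  have hx2 : 100 ≤ x := (le_max_right _ _).trans hx
  have hx0 : 0 < x := by linarith
  obtain ⟨hCt, hLt⟩ := hX₁ (2 * x) (by linarith)
  refine ⟨(2 * x) ^ ((N : ℝ)⁻¹), ?_, hLt, hCt, ?_, ?_⟩
  · rw [← hN, Real.rpow_inv_natCast_pow (by linarith) hN0]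
  · rw [← Real.rpow_natCast, ← Real.rpow_mul (by linarith)]
    have h1 : (N : ℝ)⁻¹ * ((40 : ℕ) : ℝ) ≤ ε / 2 := by
      rw [inv_mul_le_iff₀ hNr]
      push_cast
      linarith
    calc (2 * x) ^ ((N : ℝ)⁻¹ * ((40 : ℕ) : ℝ)) ≤ (x * x) ^ ((N : ℝ)⁻¹ * ((40 : ℕ) : ℝ)) := by
          apply Real.rpow_le_rpow (by linarith) (by nlinarith) (by positivity)
      _ ≤ (x * x) ^ (ε / 2) := by
          apply Real.rpow_le_rpow_of_exponent_le (by nlinarith) h1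
      _ = x ^ ε := by
          rw [Real.mul_rpow hx0.le hx0.le, ← Real.rpow_add hx0]
          congr 1
          ring
  · have hm0 : (0 : ℝ) < m := by exact_mod_cast (by omega : 0 < m)
    calc x ^ (1 / (12 * (m : ℝ))) ≤ x ^ ((N : ℝ)⁻¹) := by
          apply Real.rpow_le_rpow_of_exponent_le (by linarith)
          rw [hN]
          push_cast
          rw [← one_div]
          apply one_div_le_one_div_of_le (by positivity)
          linarith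
      _ ≤ (2 * x) ^ ((N : ℝ)⁻¹) := by
          apply Real.rpow_le_rpow hx0.le (by linarith) (by positivity)

/-- almost all moduli, every class -/
theorem mainA (hW : S_W) (hPS : S_PS) (hIS : S_IS) (hPD : S_PD) (hOI : S_OI) (hPH : S_PH)
    (hCG : S_CG) (hDU : S_DU) (hIB : S_IB) (hCS : S_CS) (hCQ : S_CQ) (hSM : S_SM2)
    (ε : ℝ) (hε : 0 < ε) : ∃ δ x₀ : ℝ, 0 < δ ∧ 100 ≤ x₀ ∧ ∀ x : ℝ, x₀ ≤ x → ∀ Q : ℕ, 1 ≤ Q →
    (Q : ℝ) ≤ x ^ (1 / 2 - ε) → ∃ E : Finset ℕ, (E.card : ℝ) ≤ Q * x ^ (-δ) ∧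
      ∀ q : ℕ, Q < q → q ≤ 2 * Q → q ∉ E → ∀ a : ℕ, a.Coprime q →
      2 * (x ^ (1 / 3 - ε) / (Q : ℝ) ^ (2 / 3 : ℝ)) * x ≤ ∫ u in x..(2 * x), Er q a u ^ 2 := by
  obtain ⟨C, hC1, hthA⟩ := thA hW hPS hIS hPD hOI hPH hCG hDU hIB hCS hCQ hSM
  obtain ⟨m, hm, x₀, hx₀, hpar⟩ := small_t ε C hε
  have hm0 : (0 : ℝ) < m := by exact_mod_cast (by omega : 0 < m)
  refine ⟨1 / (6 * (m : ℝ)), x₀, by positivity, hx₀, fun x hx Q hQ hQx => ?_⟩
  obtain ⟨t, hZ, hLt, hCt, ht40, htm⟩ := hpar x hx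
  have hx100 : 100 ≤ x := hx₀.trans hx
  have hx0 : 0 < x := by linarith
  have ht1 : 1 ≤ t := hC1.trans hCt
  have ht0 : 0 < t := by linarith
  have hQ0 : (1 : ℝ) ≤ Q := by exact_mod_cast hQ
  have hQpos : (0 : ℝ) < Q := by linarith
  have hlog0 : 0 ≤ Real.log (2 * x) := Real.log_nonneg (by linarith)
  have hLg1 : 1 ≤ 1 + Real.log (2 * x) := by linarith
  have ht6 : (10 : ℝ) ^ 6 ≤ t := by
    have : (1 : ℝ) ≤ (1 + Real.log (2 * x)) ^ 6 := one_le_pow₀ hLg1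
    linarith
  -- the parameter `R`
  obtain ⟨ρ, hρ⟩ : ∃ ρ : ℝ, ρ = (2 * x / ((Q : ℝ) ^ 2 * t ^ 36)) ^ (1 / 3 : ℝ) := ⟨_, rfl⟩
  have hb0 : 0 < 2 * x / ((Q : ℝ) ^ 2 * t ^ 36) := by positivity
  have hρ0 : 0 < ρ := by rw [hρ]; positivity
  have hρ3 : ρ ^ 3 = 2 * x / ((Q : ℝ) ^ 2 * t ^ 36) := by
    rw [hρ, ← Real.rpow_natCast, ← Real.rpow_mul hb0.le]
    norm_num
  have hQ2 : (Q : ℝ) ^ 2 * t ^ 69 ≤ 2 * x := by
    have h1 : t ^ 69 ≤ x ^ (2 * ε) := by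
      calc t ^ 69 ≤ t ^ 80 := pow_le_pow_right₀ ht1 (by norm_num)
        _ = (t ^ 40) ^ 2 := by ring
        _ ≤ (x ^ ε) ^ 2 := by gcongr
        _ = x ^ (2 * ε) := by
            rw [← Real.rpow_natCast, ← Real.rpow_mul hx0.le]
            congr 1
            push_cast
            ring
    calc (Q : ℝ) ^ 2 * t ^ 69 ≤ (x ^ (1 / 2 - ε)) ^ 2 * x ^ (2 * ε) := by gcongr
      _ = x := by
          rw [← Real.rpow_natCast, ← Real.rpow_mul hx0.le, ← Real.rpow_add hx0]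
          push_cast
          ring_nf
          rw [Real.rpow_one]
      _ ≤ 2 * x := by linarith
  have hρ11 : t ^ 11 ≤ ρ := by
    have h1 : (t ^ 11) ^ 3 ≤ ρ ^ 3 := by
      rw [hρ3, le_div_iff₀ (by positivity)]
      calc (t ^ 11) ^ 3 * ((Q : ℝ) ^ 2 * t ^ 36) = (Q : ℝ) ^ 2 * t ^ 69 := by ring
        _ ≤ 2 * x := hQ2
    exact le_of_pow_le_pow_left₀ (by norm_num) hρ0.le h1
  obtain ⟨R, hR⟩ : ∃ R : ℕ, R = ⌊ρ⌋₊ := ⟨_, rfl⟩
  have hR1 : (R : ℝ) ≤ ρ := by rw [hR]; exact Nat.floor_le hρ0.le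
  have hR2 : ρ < R + 1 := by rw [hR]; exact Nat.lt_floor_add_one ρ
  have ht1011 : t ^ 10 + 1 ≤ t ^ 11 := by
    have h1 : t ^ 11 = t ^ 10 * t := by ring
    have h2 : 1 ≤ t ^ 10 := one_le_pow₀ ht1
    rw [h1]
    nlinarith
  have hRt10 : t ^ 10 ≤ R := by linarith
  have hR0 : (1 : ℝ) ≤ R := (one_le_pow₀ ht1).trans hRt10
  have hRρ : ρ ≤ 2 * R := by linarith
  have hRQ : (R : ℝ) ^ 3 * (Q : ℝ) ^ 2 * t ^ 36 ≤ 2 * x := by
    have h1 : (R : ℝ) ^ 3 ≤ ρ ^ 3 := by gcongr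
    rw [hρ3, le_div_iff₀ (by positivity)] at h1
    calc (R : ℝ) ^ 3 * (Q : ℝ) ^ 2 * t ^ 36 = (R : ℝ) ^ 3 * ((Q : ℝ) ^ 2 * t ^ 36) := by ring
      _ ≤ 2 * x := h1
  obtain ⟨E, hE1, hE2⟩ := hthA m Q R t (1 + Real.log (2 * x)) x hm hZ rfl hLt hCt hQ hRt10 hRQ
  refine ⟨E, ?_, fun q hq1 hq2 hqE a ha => ?_⟩
  · -- the exceptional set
    have h1 : x ^ (1 / (6 * (m : ℝ))) ≤ t ^ 2 := by
      calc x ^ (1 / (6 * (m : ℝ))) = (x ^ (1 / (12 * (m : ℝ)))) ^ 2 := by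
            rw [← Real.rpow_natCast, ← Real.rpow_mul hx0.le]
            congr 1
            push_cast
            field_simp
            norm_num
        _ ≤ t ^ 2 := by gcongr
    rw [Real.rpow_neg hx0.le, ← div_eq_mul_inv, le_div_iff₀ (by positivity)]
    calc (E.card : ℝ) * x ^ (1 / (6 * (m : ℝ))) ≤ (E.card : ℝ) * t ^ 2 := by gcongr
      _ ≤ Q := hE1
  · have h := hE2 q hq1 hq2 hqE a ha
    set V := ∫ u in x..(2 * x), Er q a u ^ 2 with hV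
    have hV0 : 0 ≤ V := by
      rw [hV]
      apply intervalIntegral.integral_nonneg (by linarith)
      intro u _
      positivity
    have hLg9 : 10 ^ 9 * (1 + Real.log (2 * x)) ≤ t ^ 2 := by
      have k1 : 1 + Real.log (2 * x) ≤ (1 + Real.log (2 * x)) ^ 6 := by
        calc 1 + Real.log (2 * x) = (1 + Real.log (2 * x)) ^ 1 := (pow_one _).symm
          _ ≤ _ := pow_le_pow_right₀ hLg1 (by norm_num)
      calc 10 ^ 9 * (1 + Real.log (2 * x)) ≤ 10 ^ 3 * (10 ^ 6 * (1 + Real.log (2 * x)) ^ 6) := by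
            linarith
        _ ≤ 10 ^ 3 * t := by gcongr
        _ ≤ t * t := by
            gcongr
            linarith
        _ = t ^ 2 := by ring
    have h2 : (R : ℝ) * x ≤ t ^ 2 * V := h.trans (by gcongr)
    -- the size of `ρ`
    have h3 : x ^ (1 / 3 : ℝ) / (Q : ℝ) ^ (2 / 3 : ℝ) ≤ ρ * t ^ 12 := by
      have e1 : ρ * t ^ 12 = (2 * x / (Q : ℝ) ^ 2) ^ (1 / 3 : ℝ) := by
        have e2 : t ^ 12 = (t ^ 36) ^ (1 / 3 : ℝ) := by
          rw [← Real.rpow_natCast t 36, ← Real.rpow_mul ht0.le, ← Real.rpow_natCast]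
          congr 1
          norm_num
        rw [e2, hρ, ← Real.mul_rpow hb0.le (by positivity)]
        congr 1
        field_simp
      rw [e1]
      have e3 : x ^ (1 / 3 : ℝ) / (Q : ℝ) ^ (2 / 3 : ℝ) = (x / (Q : ℝ) ^ 2) ^ (1 / 3 : ℝ) := by
        rw [Real.div_rpow hx0.le (by positivity)]
        congr 1
        rw [← Real.rpow_natCast, ← Real.rpow_mul hQpos.le]
        congr 1
        norm_num
      rw [e3]
      apply Real.rpow_le_rpow (by positivity) _ (by norm_num)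
      gcongr
      linarith
    have h4 : x ^ (1 / 3 - ε) / (Q : ℝ) ^ (2 / 3 : ℝ) =
        x ^ (1 / 3 : ℝ) / (Q : ℝ) ^ (2 / 3 : ℝ) / x ^ ε := by
      rw [Real.rpow_sub hx0]
      field_simp
    have hxε : 0 < x ^ ε := by positivity
    have h5 : 2 * (x ^ (1 / 3 - ε) / (Q : ℝ) ^ (2 / 3 : ℝ)) ≤ R / t ^ 2 := by
      rw [h4, ← mul_div_assoc, div_le_div_iff₀ hxε (by positivity)]
      calc 2 * (x ^ (1 / 3 : ℝ) / (Q : ℝ) ^ (2 / 3 : ℝ)) * t ^ 2 ≤ 2 * (ρ * t ^ 12) * t ^ 2 := by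
            gcongr
        _ ≤ 2 * ((2 * R) * t ^ 12) * t ^ 2 := by gcongr
        _ = 4 * (R * t ^ 14) := by ring
        _ ≤ t * (R * t ^ 14) := by
            gcongr
            linarith
        _ = R * t ^ 15 := by ring
        _ ≤ R * x ^ ε := by
            gcongr
            exact (pow_le_pow_right₀ ht1 (by norm_num)).trans ht40
    calc 2 * (x ^ (1 / 3 - ε) / (Q : ℝ) ^ (2 / 3 : ℝ)) * x ≤ R / t ^ 2 * x := by gcongr
      _ = R * x / t ^ 2 := by ring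
      _ ≤ V := by
          rw [div_le_iff₀ (by positivity)]
          linarith

end Pool.Agent.D0H44.EC
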