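import Mathlib
import Pool.Agent.D0H44.EC.Stm

/-! Project EC, second block: EVERY modulus `q ≤ x ^ (1/3 - ε)` and EVERY class. The large sieve and
the identity of Vaughan inside one residue class, for characters modulo primes `r ∈ (R, 2 R]`. -/

open Finset MeasureTheory

namespace Pool.Agent.D0H44.EC

open H343 (ex)
open Pool.Agent.Helper112 Pool.Agent.Helper112.BLB
open Pool.Agent.H398R2.BV Pool.Agent.H410R2
open Pool.Agent.D0H44.EL
open Pool.Agent.D0H44.EM (ps Er)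
open Pool.Agent.D0H44.FR

/-- restriction to a class -/
def rc (q a : ℕ) (g : ℕ → ℝ) (n : ℕ) : ℝ := if n ≡ a [MOD q] then g n else 0

/-- the complementary restriction: `m n ≡ a` -/
def rd (q a m : ℕ) (g : ℕ → ℝ) (n : ℕ) : ℝ := if m * n ≡ a [MOD q] then g n else 0

/-- the von Mangoldt function on the class -/
noncomputable def La (q a : ℕ) (n : ℕ) : ℝ := rc q a (fun n => ArithmeticFunction.vonMangoldt n) n

/-- package PSA: partial summation inside the class. As `t_PS` and `t_IS` (file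
`Pool/Agent/D0H51/FR/PS.lean`; `Λ(n)` is replaced by `Λ(n) 1_{n ≡ a (q)}`), with the weight
`o(y) = w(y / x)`, `|o' + y o''| ≤ 600 / y`; for a prime `r` the nonprincipal characters are the
primitive ones. -/
def S_PSA : Prop := ∀ (x : ℝ) (q a M : ℕ) (G : Finset ℕ) (B : ℝ), 1 ≤ x → 2 * x ≤ M →
  (∀ r ∈ G, r.Prime) →
  (∀ y : ℝ, 1 ≤ y → y ≤ 2 * x → ∑ r ∈ G, ∑ ψ ∈ Prim r, ‖TL y r ψ (La q a)‖ ≤ B) →
  ∑ r ∈ G, CR x q a M r ≤ 600 * (B * Real.log (2 * x))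

/-- package PVA: the inequality of Pólya and Vinogradov inside a class: `i = b₀ + q j`,
`ψ(b₀ + q j) = ψ(q) ψ(j + c)` with `c q ≡ b₀ (mod r)`; the sum over `j` is the difference of two sums
over initial segments (`H343.PVaux.PV_plain`). -/
def S_PVA : Prop := ∀ (r q b N : ℕ), r.Prime → 1 ≤ q → ¬ r ∣ q → ∀ ψ ∈ Prim r,
  ‖∑ i ∈ (Icc 1 N).filter (fun i => i ≡ b [MOD q]), ψ (i : ZMod r)‖ ≤
    2 * (Real.sqrt r * (1 + Real.log r))

/-- package LSA: the large sieve inside a class. `n = b₀ + q j`; primitive characters by Gauss sums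
and additive characters, `e(h n / r) = e(h b₀ / r) e(h q j / r)` and `h q` runs over the reduced
classes modulo `r` with `h`; then the additive large sieve for the variable `j ≤ N / q`. See the
proof of the multiplicative large sieve behind `P_sieve` (`Pool/Agent/Helper112/Bilinear.lean`). -/
def S_LSA : Prop := ∀ (R q m N : ℕ) (G : Finset ℕ) (α : ℕ → ℝ), 1 ≤ R → 1 ≤ q →
  (∀ r ∈ G, r.Prime ∧ R < r ∧ r ≤ 2 * R ∧ ¬ r ∣ q) →
  ∑ r ∈ G, ∑ ψ ∈ Prim r, ‖A N (rc q m α) r ψ‖ ^ 2 ≤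
    10 * ((N : ℝ) / q + 1 + 4 * (R : ℝ) ^ 2) * ∑ b ∈ Icc 1 N, rc q m α b ^ 2

/-- package BLA: the bilinear sums. Cauchy-Schwarz for each `m`, LSA for both factors (if
`m c ≡ a (mod q)` has a solution `c` then `m` is invertible, because `a` is, and the `c` form one
class), then Cauchy-Schwarz over `m`; for each `c` at most one `m` has `m c ≡ a`. -/
def S_BLA : Prop := ∀ (R q a x y : ℕ) (G : Finset ℕ) (α β : ℕ → ℝ), 1 ≤ R → 1 ≤ q →
  a.Coprime q → (∀ r ∈ G, r.Prime ∧ R < r ∧ r ≤ 2 * R ∧ ¬ r ∣ q) →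
  ∑ m ∈ range q, ∑ r ∈ G, P x y (rc q m α) (rd q a m β) r ≤
    10 * (Real.sqrt ((x : ℝ) / q + 1 + 4 * (R : ℝ) ^ 2) *
      Real.sqrt ((y : ℝ) / q + 1 + 4 * (R : ℝ) ^ 2)) *
      (Real.sqrt (∑ b ∈ Icc 1 x, α b ^ 2) * Real.sqrt (∑ c ∈ Icc 1 y, β c ^ 2))

/-- package SPA: separation of variables for the sum over `m` (as `sum_TL_le`, file
`Pool/Agent/H398R2/BV2.lean`, with one more finite sum; `∑_{m < q} rc q m α b * rd q a m β c =
α b β c 1_{b c ≡ a}`). -/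
def S_SPA : Prop := ∀ (X : ℝ) (q a : ℕ) (G : Finset ℕ) (α β : ℕ → ℝ) (K : ℝ), 1 ≤ X → 1 ≤ q →
  (∀ t : ℝ, 1 ≤ t → t ≤ X →
    ∑ m ∈ range q, ∑ r ∈ G, P ⌊t⌋₊ ⌊X / t⌋₊ (rc q m α) (rd q a m β) r ≤ K) →
  ∑ r ∈ G, ∑ ψ ∈ Prim r,
    ‖TL X r ψ (rc q a (fun n => ∑ i ∈ n.divisorsAntidiagonal, α i.1 * β i.2))‖ ≤
    K * Real.log X

/-- package ENA: the sum over the class. Adapt `EL.eng` and the lemmas before it (file
`Pool/Agent/D0H44/EL/Eng.lean`): `psiLog_dec` holds with the factor `1_{n ≡ a (q)}`; `piece1`,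
`piece2`, `piece3` with sums over `b ≤ X / c`, `b c ≡ a (mod q)` (empty, or one class `b ≡ b₀`), the
character sums bounded by PVA (at most `2 √(2R) (1 + log (2R))`); the other two pieces by SPA and BLA,
as `pt_I`, `pt_II`: `√(x / q + 1 + 4 R ^ 2) ≤ √(x / q) + 3 R`. At most `2 R ^ 2` characters. -/
def S_ENA : Prop := ∀ (X : ℝ) (q a R U : ℕ) (G : Finset ℕ), 1 ≤ X → 1 ≤ q → a.Coprime q →
  1 ≤ R → 1 ≤ U → (∀ r ∈ G, r.Prime ∧ R < r ∧ r ≤ 2 * R ∧ ¬ r ∣ q) →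
  ∑ r ∈ G, ∑ ψ ∈ Prim r, ‖TL X r ψ (La q a)‖ ≤
    64 * (R : ℝ) ^ 2 * (U * (Real.sqrt (2 * R) * (1 + Real.log (2 * R))) * Real.log X ^ 2) +
    200 * (Real.sqrt X / q + R * (2 * Real.sqrt (X / (U * q)) + U / Real.sqrt q) +
      (R : ℝ) ^ 2) * (Real.sqrt X * (1 + Real.log X) ^ 4)

end Pool.Agent.D0H44.EC
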