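import Mathlib
import Pool.Agent.D0H44.EC.MainA
import Pool.Agent.D0H44.EC.StmB

/-! Every modulus `q ≤ x ^ (1/3 - ε)` and every class. -/

open Finset MeasureTheory Filter

namespace Pool.Agent.D0H44.EC

open Pool.Agent.H398R2.BV Pool.Agent.H410R2
open Pool.Agent.D0H44.EM (ps Er)
open Pool.Agent.D0H44.FR

/-- arithmetic of the sizes -/
theorem b_arith (m : ℕ) (t Lg x q R σ U : ℝ) (ht6 : 10 ^ 6 ≤ t) (hm : 40 ≤ m)
    (hZ : 2 * x = t ^ (6 * m)) (hLg1 : 1 ≤ Lg) (hLt : 10 ^ 6 * Lg ^ 6 ≤ t) (hq : 1 ≤ q)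
    (hσ2 : σ ^ 2 = R) (hσ5 : t ^ 5 ≤ σ) (hRq : R * q ≤ t ^ (2 * m - 4))
    (hU0 : 0 ≤ U) (hU2 : U ≤ 2 * t ^ (2 * m)) :
    10 ^ 6 * 2 * Lg ^ 2 * q * (64 * R ^ 2 * (U * (2 * σ * Lg) * Lg ^ 2) +
      200 * (t ^ (3 * m) / q + R * (4 * t ^ (2 * m) / Real.sqrt q) + R ^ 2) *
        (t ^ (3 * m) * Lg ^ 4)) ≤ σ * x := by
  have ht1 : (1 : ℝ) ≤ t := by linarith
  have ht0 : 0 < t := by linarith
  have hσ0 : 0 < σ := lt_of_lt_of_le (by positivity) hσ5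
  have hR0 : 0 < R := by rw [← hσ2]; positivity
  have hq0 : 0 < q := by linarith
  have hx0 : 0 < x := by
    have : 0 < t ^ (6 * m) := by positivity
    linarith
  obtain ⟨s, hs⟩ : ∃ s : ℝ, s = Real.sqrt q := ⟨_, rfl⟩
  have hs2 : s ^ 2 = q := by rw [hs, Real.sq_sqrt hq0.le]
  have hs0 : 0 < s := by rw [hs]; positivity
  rw [← hs]
  -- `σ s ≤ t ^ (m - 2)`
  have hσs : σ * s ≤ t ^ (m - 2) := by
    have h1 : (σ * s) ^ 2 ≤ (t ^ (m - 2)) ^ 2 := by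
      calc (σ * s) ^ 2 = R * q := by rw [mul_pow, hσ2, hs2]
        _ ≤ t ^ (2 * m - 4) := hRq
        _ = (t ^ (m - 2)) ^ 2 := by
            rw [← pow_mul]
            congr 1
            omega
    exact (abs_le_of_sq_le_sq' h1 (by positivity)).2
  have p1 : t ^ (m - 2) * t ^ 2 = t ^ m := by
    rw [← pow_add]
    congr 1
    omega
  have hx6 : 2 * x = (t ^ m) ^ 6 := by rw [hZ, ← pow_mul, mul_comm]
  obtain ⟨y, hy⟩ : ∃ y : ℝ, y = t ^ m := ⟨_, rfl⟩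
  obtain ⟨z, hz⟩ : ∃ z : ℝ, z = t ^ (m - 2) := ⟨_, rfl⟩
  have e2 : t ^ (2 * m) = y ^ 2 := by rw [hy]; ring
  have e3 : t ^ (3 * m) = y ^ 3 := by rw [hy]; ring
  rw [← hy] at hx6 p1
  rw [← hz] at hσs p1
  rw [e2] at hU2
  rw [e2, e3]
  have hy0 : 0 < y := by rw [hy]; positivity
  have hz0 : 0 < z := by rw [hz]; positivity
  have hz' : z = y / t ^ 2 := by rw [← p1]; field_simp
  have hRq' : R * q ≤ z ^ 2 := by
    calc R * q = (σ * s) ^ 2 := by rw [mul_pow, hσ2, hs2]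
      _ ≤ z ^ 2 := by gcongr
  -- the terms
  have t1 : q * (64 * R ^ 2 * (U * (2 * σ * Lg) * Lg ^ 2)) ≤ σ * (256 * (y ^ 6 * Lg ^ 4 / t ^ 8)) := by
    calc q * (64 * R ^ 2 * (U * (2 * σ * Lg) * Lg ^ 2)) ≤
        (q * q) * (64 * R ^ 2 * ((2 * y ^ 2) * (2 * σ * Lg) * Lg ^ 2)) := by
          gcongr
          nlinarith
      _ = σ * (256 * ((R * q) ^ 2 * y ^ 2 * Lg ^ 3)) := by ring
      _ ≤ σ * (256 * ((z ^ 2) ^ 2 * y ^ 2 * Lg ^ 4)) := by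
          gcongr
          norm_num
      _ = _ := by
          rw [hz']
          field_simp
  have t2 : q * (200 * (y ^ 3 / q) * (y ^ 3 * Lg ^ 4)) ≤ σ * (200 * (y ^ 6 * Lg ^ 4 / t ^ 5)) := by
    calc q * (200 * (y ^ 3 / q) * (y ^ 3 * Lg ^ 4)) = t ^ 5 * (200 * (y ^ 6 * Lg ^ 4 / t ^ 5)) := by
          field_simp
      _ ≤ _ := by gcongr
  have t3 : q * (200 * (R * (4 * y ^ 2 / s)) * (y ^ 3 * Lg ^ 4)) ≤
      σ * (800 * (y ^ 6 * Lg ^ 4 / t ^ 2)) := by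
    calc q * (200 * (R * (4 * y ^ 2 / s)) * (y ^ 3 * Lg ^ 4)) =
        σ * (800 * ((σ * s) * y ^ 5 * Lg ^ 4)) := by
          rw [← hs2, ← hσ2]
          field_simp
          ring
      _ ≤ σ * (800 * (z * y ^ 5 * Lg ^ 4)) := by gcongr
      _ = _ := by
          rw [hz']
          field_simp
  have t4 : q * (200 * R ^ 2 * (y ^ 3 * Lg ^ 4)) ≤ σ * (200 * (y ^ 6 * Lg ^ 4 / t ^ 6)) := by
    have hq1 : q ≤ s ^ 3 := by
      rw [← hs2]
      have : 1 ≤ s := by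
        rw [hs, Real.one_le_sqrt]
        exact hq
      exact pow_le_pow_right₀ this (by norm_num)
    calc q * (200 * R ^ 2 * (y ^ 3 * Lg ^ 4)) ≤ s ^ 3 * (200 * R ^ 2 * (y ^ 3 * Lg ^ 4)) := by
          gcongr
      _ = σ * (200 * ((σ * s) ^ 3 * y ^ 3 * Lg ^ 4)) := by
          rw [← hσ2]
          ring
      _ ≤ σ * (200 * (z ^ 3 * y ^ 3 * Lg ^ 4)) := by gcongr
      _ = _ := by
          rw [hz']
          field_simp
  obtain ⟨E, hE⟩ : ∃ E : ℝ, E = y ^ 6 * Lg ^ 4 / t ^ 2 := ⟨_, rfl⟩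
  have hE0 : 0 ≤ E := by rw [hE]; positivity
  have c1 : y ^ 6 * Lg ^ 4 / t ^ 8 ≤ E := by rw [hE]; gcongr; norm_num
  have c2 : y ^ 6 * Lg ^ 4 / t ^ 5 ≤ E := by rw [hE]; gcongr; norm_num
  have c4 : y ^ 6 * Lg ^ 4 / t ^ 6 ≤ E := by rw [hE]; gcongr; norm_num
  rw [← hE] at t3
  have s1 : σ * (256 * (y ^ 6 * Lg ^ 4 / t ^ 8)) ≤ σ * (256 * E) := by gcongr
  have s2 : σ * (200 * (y ^ 6 * Lg ^ 4 / t ^ 5)) ≤ σ * (200 * E) := by gcongr
  have s4 : σ * (200 * (y ^ 6 * Lg ^ 4 / t ^ 6)) ≤ σ * (200 * E) := by gcongr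
  have hsum : q * (64 * R ^ 2 * (U * (2 * σ * Lg) * Lg ^ 2) +
      200 * (y ^ 3 / q + R * (4 * y ^ 2 / s) + R ^ 2) * (y ^ 3 * Lg ^ 4)) ≤
      σ * (1500 * E) := by
    calc q * (64 * R ^ 2 * (U * (2 * σ * Lg) * Lg ^ 2) +
      200 * (y ^ 3 / q + R * (4 * y ^ 2 / s) + R ^ 2) * (y ^ 3 * Lg ^ 4)) =
        q * (64 * R ^ 2 * (U * (2 * σ * Lg) * Lg ^ 2)) +
        q * (200 * (y ^ 3 / q) * (y ^ 3 * Lg ^ 4)) +
        q * (200 * (R * (4 * y ^ 2 / s)) * (y ^ 3 * Lg ^ 4)) +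
        q * (200 * R ^ 2 * (y ^ 3 * Lg ^ 4)) := by ring
      _ ≤ σ * (256 * E) + σ * (200 * E) + σ * (800 * E) + σ * (200 * E) := by linarith
      _ = σ * (1456 * E) := by ring
      _ ≤ σ * (1500 * E) := by gcongr; norm_num
  calc 10 ^ 6 * 2 * Lg ^ 2 * q * (64 * R ^ 2 * (U * (2 * σ * Lg) * Lg ^ 2) +
      200 * (y ^ 3 / q + R * (4 * y ^ 2 / s) + R ^ 2) * (y ^ 3 * Lg ^ 4)) =
      10 ^ 6 * 2 * Lg ^ 2 * (q * (64 * R ^ 2 * (U * (2 * σ * Lg) * Lg ^ 2) +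
      200 * (y ^ 3 / q + R * (4 * y ^ 2 / s) + R ^ 2) * (y ^ 3 * Lg ^ 4))) := by ring
    _ ≤ 10 ^ 6 * 2 * Lg ^ 2 * (σ * (1500 * E)) := by gcongr
    _ = σ * (6 * 10 ^ 9 * Lg ^ 6 / t ^ 2 * x) := by
        have hyx : y ^ 6 = 2 * x := hx6.symm
        rw [hE, hyx]
        ring
    _ ≤ σ * (1 * x) := by
        gcongr
        rw [div_le_one (by positivity)]
        calc 6 * 10 ^ 9 * Lg ^ 6 = 6000 * (10 ^ 6 * Lg ^ 6) := by ring
          _ ≤ 6000 * t := by gcongr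
          _ ≤ t * t := by
              gcongr
              linarith
          _ = t ^ 2 := by ring
    _ = σ * x := by rw [one_mul]

/-- every modulus and every class -/
theorem mainB (hPD : S_PD) (hOI : S_OI) (hPH : S_PH) (hCG : S_CG) (hDU : S_DU) (hIB : S_IB)
    (hCS : S_CS) (hPSA : S_PSA) (hENA : S_ENA) (ε : ℝ) (hε : 0 < ε) :
    ∃ x₀ : ℝ, 100 ≤ x₀ ∧ ∀ x : ℝ, x₀ ≤ x → ∀ q : ℕ, 1 ≤ q → (q : ℝ) ≤ x ^ (1 / 3 - ε) →
      ∀ a : ℕ, a.Coprime q →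
      2 * (x ^ (1 / 3 - ε) / q) * x ≤ ∫ u in x..(2 * x), Er q a u ^ 2 := by
  obtain ⟨R₀, hR₀, hcnt⟩ := EM.cnt
  obtain ⟨m, hm, x₀, hx₀, hpar⟩ := small_t ε (max 1 R₀) hε
  refine ⟨x₀, hx₀, fun x hx q hq hqx a ha => ?_⟩
  obtain ⟨t, hZ, hLt, hCt, ht40, _⟩ := hpar x hx
  have hx100 : 100 ≤ x := hx₀.trans hx
  have hx0 : 0 < x := by linarith
  have hx1 : 1 ≤ x := by linarith
  have ht1 : 1 ≤ t := (le_max_left _ _).trans hCt
  have hCR : (R₀ : ℝ) ≤ t := (le_max_right _ _).trans hCt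
  have ht0 : 0 < t := by linarith
  have hq0 : (1 : ℝ) ≤ q := by exact_mod_cast hq
  have hqpos : (0 : ℝ) < q := by linarith
  obtain ⟨Lg, hLg⟩ : ∃ Lg : ℝ, Lg = 1 + Real.log (2 * x) := ⟨_, rfl⟩
  rw [← hLg] at hLt
  have hlog0 : 0 ≤ Real.log (2 * x) := Real.log_nonneg (by linarith)
  have hLg1 : 1 ≤ Lg := by linarith
  have hLg60 : 0 ≤ Lg ^ 6 := by positivity
  have ht6 : (10 : ℝ) ^ 6 ≤ t := by
    have : (1 : ℝ) ≤ Lg ^ 6 := one_le_pow₀ hLg1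
    linarith
  -- `x ^ (1/3) ≤ t ^ (2 m)`
  have hx13 : x ^ (1 / 3 : ℝ) ≤ t ^ (2 * m) := by
    have h1 : (x ^ (1 / 3 : ℝ)) ^ 3 ≤ (t ^ (2 * m)) ^ 3 := by
      calc (x ^ (1 / 3 : ℝ)) ^ 3 = x := by
            rw [← Real.rpow_natCast, ← Real.rpow_mul hx0.le]
            norm_num
        _ ≤ 2 * x := by linarith
        _ = t ^ (6 * m) := hZ
        _ = (t ^ (2 * m)) ^ 3 := by ring
    exact le_of_pow_le_pow_left₀ (by norm_num) (by positivity) h1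
  have hqt : (q : ℝ) * x ^ ε ≤ x ^ (1 / 3 : ℝ) := by
    calc (q : ℝ) * x ^ ε ≤ x ^ (1 / 3 - ε) * x ^ ε := by gcongr
      _ = x ^ (1 / 3 : ℝ) := by rw [← Real.rpow_add hx0, sub_add_cancel]
  -- the parameter
  obtain ⟨ρ, hρ⟩ : ∃ ρ : ℝ, ρ = t ^ (2 * m - 4) / q := ⟨_, rfl⟩
  have hρ0 : 0 < ρ := by rw [hρ]; positivity
  have ht4 : t ^ (2 * m - 4) * t ^ 4 = t ^ (2 * m) := by
    rw [← pow_add]
    congr 1
    omega
  have hρ11 : t ^ 11 ≤ ρ := by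
    rw [hρ, le_div_iff₀ hqpos]
    have h1 : t ^ 11 * q * t ^ 4 ≤ t ^ (2 * m - 4) * t ^ 4 := by
      rw [ht4]
      calc t ^ 11 * q * t ^ 4 = q * t ^ 15 := by ring
        _ ≤ q * x ^ ε := by
            gcongr
            exact (pow_le_pow_right₀ ht1 (by norm_num)).trans ht40
        _ ≤ x ^ (1 / 3 : ℝ) := hqt
        _ ≤ t ^ (2 * m) := hx13
    exact le_of_mul_le_mul_right h1 (by positivity)
  obtain ⟨R, hR⟩ : ∃ R : ℕ, R = ⌊ρ⌋₊ := ⟨_, rfl⟩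
  have hR1 : (R : ℝ) ≤ ρ := by rw [hR]; exact Nat.floor_le hρ0.le
  have hR2 : ρ < R + 1 := by rw [hR]; exact Nat.lt_floor_add_one ρ
  have ht1011 : t ^ 10 + 1 ≤ t ^ 11 := by
    have h1 : t ^ 11 = t ^ 10 * t := by ring
    have h2 : 1 ≤ t ^ 10 := one_le_pow₀ ht1
    rw [h1]
    nlinarith
  have hRt10 : t ^ 10 ≤ R := by linarith
  have hR0 : (1 : ℝ) ≤ R := (one_le_pow₀ ht1).trans hRt10
  have hRn : 1 ≤ R := by exact_mod_cast hR0
  have hRpos : (0 : ℝ) < R := by linarith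
  have hRρ : ρ ≤ 2 * R := by linarith
  have hRq : (R : ℝ) * q ≤ t ^ (2 * m - 4) := by
    calc (R : ℝ) * q ≤ ρ * q := by gcongr
      _ = t ^ (2 * m - 4) := by rw [hρ]; field_simp
  have htR : t ≤ R := by
    refine le_trans ?_ hRt10
    calc t = t ^ 1 := (pow_one t).symm
      _ ≤ _ := pow_le_pow_right₀ ht1 (by norm_num)
  have hRR₀ : R₀ ≤ R := by
    have : (R₀ : ℝ) ≤ R := hCR.trans htR
    exact_mod_cast this
  -- `(R q) ^ 3 t ^ 12 ≤ 2 x`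
  have hRq3 : ((R : ℝ) * q) ^ 3 * t ^ 12 ≤ 2 * x := by
    calc ((R : ℝ) * q) ^ 3 * t ^ 12 ≤ (t ^ (2 * m - 4)) ^ 3 * t ^ 12 := by gcongr
      _ = (t ^ (2 * m - 4) * t ^ 4) ^ 3 := by ring
      _ = (t ^ (2 * m)) ^ 3 := by rw [ht4]
      _ = 2 * x := by rw [hZ]; ring
  have hRq1 : (1 : ℝ) ≤ (R : ℝ) * q := by nlinarith
  have ht2 : (2 : ℝ) * t ≤ t ^ 12 := by
    calc (2 : ℝ) * t ≤ t * t := by gcongr; linarith
      _ = t ^ 2 := by ring
      _ ≤ t ^ 12 := pow_le_pow_right₀ ht1 (by norm_num)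
  have hRq3' : ((R : ℝ) * q) ^ 3 * t ≤ x := by
    have h1 : ((R : ℝ) * q) ^ 3 * (2 * t) ≤ ((R : ℝ) * q) ^ 3 * t ^ 12 := by gcongr
    linarith
  have hRRq : (R : ℝ) * q ≤ ((R : ℝ) * q) ^ 3 := by
    calc (R : ℝ) * q = ((R : ℝ) * q) ^ 1 := (pow_one _).symm
      _ ≤ _ := pow_le_pow_right₀ hRq1 (by norm_num)
  have hRqx : (R : ℝ) * q ≤ x := by
    have : ((R : ℝ) * q) ^ 3 ≤ ((R : ℝ) * q) ^ 3 * t := by
      have : 0 ≤ ((R : ℝ) * q) ^ 3 := by positivity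
      nlinarith
    linarith
  set G := (Ioc R (2 * R)).filter (fun r : ℕ => r.Prime ∧ ¬ r ∣ q) with hG
  have hGm : ∀ r ∈ G, r.Prime ∧ R < r ∧ r ≤ 2 * R ∧ ¬ r ∣ q := by
    intro r hr
    rw [hG, mem_filter, mem_Ioc] at hr
    exact ⟨hr.2.1, hr.1.1, hr.1.2, hr.2.2⟩
  have hGR : (G.card : ℝ) ≤ R := by
    have h1 : G.card ≤ (Ioc R (2 * R)).card := card_le_card (filter_subset _ _)
    rw [Nat.card_Ioc] at h1
    have : G.card ≤ R := by omega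
    exact_mod_cast this
  have hqle : (q : ℝ) ≤ 2 * x := by
    have : (q : ℝ) ≤ R * q := by nlinarith
    linarith
  have hlq : 1 + Real.log q ≤ Lg := by
    have := Real.log_le_log (by linarith) hqle
    linarith
  have hRx2 : 2 * (R : ℝ) ≤ 2 * x := by
    have : (R : ℝ) ≤ R * q := by nlinarith
    linarith
  have hl2R : 1 + Real.log (2 * R) ≤ Lg := by
    have := Real.log_le_log (by linarith) hRx2
    linarith
  have hLg2 : Lg ^ 2 ≤ Lg ^ 6 := pow_le_pow_right₀ hLg1 (by norm_num)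
  have hc := hcnt R q Lg hRR₀ hq hl2R hlq (by linarith)
  rw [← hG, div_le_iff₀ (by positivity)] at hc
  have hGc : (R : ℝ) ≤ 4 * Lg * G.card := by linarith
  obtain ⟨M, hMd⟩ : ∃ M : ℕ, M = ⌈2 * x⌉₊ := ⟨_, rfl⟩
  have hM : 2 * x ≤ M := by rw [hMd]; exact Nat.le_ceil _
  have hM2 : (M : ℝ) ≤ 2 * x + 1 := by
    rw [hMd]; exact (Nat.ceil_lt_add_one (by linarith)).le
  have hM1 : (1 : ℝ) ≤ M := by linarith
  have hlogM : Real.log M ≤ 2 * Lg := by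
    have h1 : Real.log M ≤ Real.log (2 * x * (2 * x)) := by
      apply Real.log_le_log (by linarith)
      nlinarith
    rw [Real.log_mul (by linarith) (by linarith)] at h1
    linarith
  -- the sums over the characters
  obtain ⟨U, hU1, hU2⟩ : ∃ U : ℕ, t ^ (2 * m) ≤ U ∧ (U : ℝ) ≤ 2 * t ^ (2 * m) := by
    refine ⟨⌈t ^ (2 * m)⌉₊, Nat.le_ceil _, ?_⟩
    have h1 := Nat.ceil_lt_add_one (by positivity : 0 ≤ t ^ (2 * m))
    have h2 : 1 ≤ t ^ (2 * m) := one_le_pow₀ ht1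
    linarith
  have hUr : (1 : ℝ) ≤ U := (one_le_pow₀ ht1).trans hU1
  have hU : 1 ≤ U := by exact_mod_cast hUr
  obtain ⟨σ, hσ⟩ : ∃ σ : ℝ, σ = Real.sqrt R := ⟨_, rfl⟩
  have hσ2 : σ ^ 2 = R := by rw [hσ, Real.sq_sqrt hRpos.le]
  have hσ5 : t ^ 5 ≤ σ := by
    rw [hσ]
    apply Real.le_sqrt_of_sq_le
    calc (t ^ 5) ^ 2 = t ^ 10 := by ring
      _ ≤ _ := hRt10
  have hσ0 : 0 < σ := lt_of_lt_of_le (by positivity) hσ5
  obtain ⟨B, hB⟩ : ∃ B : ℝ, B = 64 * (R : ℝ) ^ 2 * (U * (2 * σ * Lg) * Lg ^ 2) +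
      200 * (t ^ (3 * m) / q + R * (4 * t ^ (2 * m) / Real.sqrt q) + (R : ℝ) ^ 2) *
        (t ^ (3 * m) * Lg ^ 4) := ⟨_, rfl⟩
  have hP : Real.sqrt (2 * x) = t ^ (3 * m) := by
    rw [hZ, Real.sqrt_eq_iff_mul_self_eq (by positivity) (by positivity)]
    ring
  have hsq0 : 0 < Real.sqrt q := by positivity
  have key : ∀ y : ℝ, 1 ≤ y → y ≤ 2 * x →
      ∑ r ∈ G, ∑ ψ ∈ Prim r, ‖TL y r ψ (La q a)‖ ≤ B := by
    intro y hy1 hy2
    refine (hENA y q a R U G hy1 hq ha hRn hU hGm).trans ?_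
    have hly : Real.log y ≤ Lg := by
      have := Real.log_le_log (by linarith) hy2
      linarith
    have hly1 : 1 + Real.log y ≤ Lg := by
      have := Real.log_le_log (by linarith) hy2
      linarith
    have hly0 : 0 ≤ Real.log y := Real.log_nonneg hy1
    have hl2R0 : 0 ≤ Real.log (2 * R) := Real.log_nonneg (by linarith)
    have hsy : Real.sqrt y ≤ t ^ (3 * m) := by
      rw [← hP]
      exact Real.sqrt_le_sqrt hy2
    have hs2R : Real.sqrt (2 * R) ≤ 2 * σ := by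
      rw [Real.sqrt_le_left (by positivity), mul_pow, hσ2]
      linarith
    have hsyU : 2 * Real.sqrt (y / (U * q)) + U / Real.sqrt q ≤
        4 * t ^ (2 * m) / Real.sqrt q := by
      have k1 : Real.sqrt (y / (U * q)) ≤ t ^ (2 * m) / Real.sqrt q := by
        rw [Real.sqrt_le_left (by positivity), div_pow, Real.sq_sqrt hqpos.le,
          div_le_div_iff₀ (by positivity) hqpos]
        calc y * q ≤ t ^ (6 * m) * q := by
              gcongr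
              rw [← hZ]
              exact hy2
          _ = (t ^ (2 * m)) ^ 2 * (t ^ (2 * m) * q) := by ring
          _ ≤ (t ^ (2 * m)) ^ 2 * (U * q) := by gcongr
      have k2 : (U : ℝ) / Real.sqrt q ≤ 2 * t ^ (2 * m) / Real.sqrt q := by gcongr
      calc 2 * Real.sqrt (y / (U * q)) + U / Real.sqrt q ≤
          2 * (t ^ (2 * m) / Real.sqrt q) + 2 * t ^ (2 * m) / Real.sqrt q := by linarith
        _ = _ := by ring
    rw [hB]
    gcongr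
  have hCRs := hPSA x q a M G B hx1 hM (fun r hr => (hGm r hr).1) key
  have hB0 : 0 ≤ B := by rw [hB]; positivity
  have harith := b_arith m t Lg x q R σ U ht6 hm hZ hLg1 hLt hq0 hσ2 hσ5 hRq (by linarith) hU2
  rw [← hB] at harith
  have hCR0 : ∀ r, 0 ≤ CR x q a M r := by
    intro r
    unfold CR
    exact sum_nonneg fun _ _ => norm_nonneg _
  have hφ0 : (0 : ℝ) < Nat.totient q := by exact_mod_cast Nat.totient_pos.2 hq
  have hφq : (Nat.totient q : ℝ) ≤ q := by exact_mod_cast Nat.totient_le q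
  have hfin : ∑ r ∈ G, Real.sqrt r / ((r : ℝ) - 1) * CR x q a M r ≤
      G.card * x / (320 * R * (Nat.totient q : ℝ)) := by
    have h1 : ∑ r ∈ G, Real.sqrt r / ((r : ℝ) - 1) * CR x q a M r ≤
        2 / σ * ∑ r ∈ G, CR x q a M r := by
      rw [mul_sum]
      apply sum_le_sum
      intro r hr
      apply mul_le_mul_of_nonneg_right _ (hCR0 r)
      obtain ⟨g1, g2, g3, _⟩ := hGm r hr
      have hr2 : (2 : ℝ) ≤ r := by exact_mod_cast g1.two_le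
      have hrR : (R : ℝ) ≤ r := by exact_mod_cast g2.le
      have hsr : 0 < Real.sqrt r := by positivity
      have hsr2 : Real.sqrt r ^ 2 = r := Real.sq_sqrt (by linarith)
      have hσr : σ ≤ Real.sqrt r := by rw [hσ]; exact Real.sqrt_le_sqrt hrR
      have hr10 : 0 < (r : ℝ) - 1 := by linarith
      rw [div_le_div_iff₀ hr10 hσ0]
      calc Real.sqrt r * σ ≤ Real.sqrt r * Real.sqrt r := by gcongr
        _ = r := Real.mul_self_sqrt (by linarith)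
        _ ≤ 2 * ((r : ℝ) - 1) := by linarith
    refine h1.trans ?_
    have h2 : 2 / σ * ∑ r ∈ G, CR x q a M r ≤ 2 / σ * (600 * (B * Lg)) := by
      gcongr
      refine hCRs.trans ?_
      have : Real.log (2 * x) ≤ Lg := by linarith
      gcongr
    refine h2.trans ?_
    have h3 : x / (1280 * Lg * q) ≤ G.card * x / (320 * R * (Nat.totient q : ℝ)) := by
      rw [div_le_div_iff₀ (by positivity) (by positivity)]
      calc x * (320 * R * (Nat.totient q : ℝ)) ≤ x * (320 * (4 * Lg * G.card) * q) := by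
            gcongr
        _ = _ := by ring
    refine le_trans ?_ h3
    rw [le_div_iff₀ (by positivity)]
    have e1 : 2 / σ * (600 * (B * Lg)) * (1280 * Lg * q) =
        (1536000 * Lg ^ 2 * q * B) / σ := by
      ring
    rw [e1, div_le_iff₀ hσ0]
    calc 1536000 * Lg ^ 2 * q * B ≤ 10 ^ 6 * 2 * Lg ^ 2 * q * B := by
          gcongr
          norm_num
      _ ≤ σ * x := harith
      _ = x * σ := by ring
  have hLgt : 10 ^ 6 * Lg ^ 2 ≤ t := by linarith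
  have hR3q : (R : ℝ) ^ 3 * q ≤ ((R : ℝ) * q) ^ 3 := by
    have : (q : ℝ) ≤ (q : ℝ) ^ 3 := by
      calc (q : ℝ) = (q : ℝ) ^ 1 := (pow_one _).symm
        _ ≤ _ := pow_le_pow_right₀ hq0 (by norm_num)
    calc (R : ℝ) ^ 3 * q ≤ (R : ℝ) ^ 3 * (q : ℝ) ^ 3 := by gcongr
      _ = _ := by ring
  have hR2q : (R : ℝ) ^ 2 * q ≤ ((R : ℝ) * q) ^ 3 := by
    refine le_trans ?_ hR3q
    have : (R : ℝ) ^ 2 ≤ (R : ℝ) ^ 3 := pow_le_pow_right₀ hR0 (by norm_num)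
    gcongr
  have hV := core1 hPD hOI hPH hCG hDU hIB hCS x Lg q a M R G hx1 hLg1 hq hRn hM hlogM
    (fun r hr => ⟨(hGm r hr).1, (hGm r hr).2.1, (hGm r hr).2.2.1⟩)
    (fun r hr => (hGm r hr).2.2.2) hGc hGR
    (by
      calc 2 * (R : ℝ) ^ 3 * q = ((R : ℝ) ^ 3 * q) * 2 := by ring
        _ ≤ ((R : ℝ) * q) ^ 3 * t := by
            gcongr
            linarith
        _ ≤ x := hRq3')
    (by
      calc 10 ^ 6 * Lg ^ 2 * (R : ℝ) ^ 2 * q = ((R : ℝ) ^ 2 * q) * (10 ^ 6 * Lg ^ 2) := by ring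
        _ ≤ ((R : ℝ) * q) ^ 3 * t := by gcongr
        _ ≤ x := hRq3')
    (by
      calc 10 ^ 6 * (R : ℝ) ^ 3 * (q : ℝ) ^ 3 = ((R : ℝ) * q) ^ 3 * 10 ^ 6 := by ring
        _ ≤ ((R : ℝ) * q) ^ 3 * t := by gcongr
        _ ≤ x := hRq3'
        _ ≤ x ^ 2 := by nlinarith) hfin
  set V := ∫ u in x..(2 * x), Er q a u ^ 2 with hVd
  have hV0 : 0 ≤ V := by
    rw [hVd]
    apply intervalIntegral.integral_nonneg (by linarith)
    intro u _
    positivity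
  have hLg9 : 10 ^ 9 * Lg ≤ t ^ 2 := by
    have k1 : Lg ≤ Lg ^ 6 := by
      calc Lg = Lg ^ 1 := (pow_one _).symm
        _ ≤ _ := pow_le_pow_right₀ hLg1 (by norm_num)
    calc 10 ^ 9 * Lg ≤ 10 ^ 3 * (10 ^ 6 * Lg ^ 6) := by linarith
      _ ≤ 10 ^ 3 * t := by gcongr
      _ ≤ t * t := by
          gcongr
          linarith
      _ = t ^ 2 := by ring
  have h2 : (R : ℝ) * x ≤ t ^ 2 * V := hV.trans (by gcongr)
  have hxε : 0 < x ^ ε := by positivity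
  have h5 : 2 * (x ^ (1 / 3 - ε) / q) ≤ R / t ^ 2 := by
    have h4 : x ^ (1 / 3 - ε) = x ^ (1 / 3 : ℝ) / x ^ ε := Real.rpow_sub hx0 _ _
    rw [h4, div_div, ← mul_div_assoc, div_le_div_iff₀ (by positivity) (by positivity)]
    calc 2 * x ^ (1 / 3 : ℝ) * t ^ 2 ≤ 2 * t ^ (2 * m) * t ^ 2 := by gcongr
      _ = 2 * (ρ * q * t ^ 4) * t ^ 2 := by
          rw [← ht4, hρ]
          field_simp
      _ ≤ 2 * ((2 * R) * q * t ^ 4) * t ^ 2 := by gcongr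
      _ = 4 * (R * q * t ^ 6) := by ring
      _ ≤ t * (R * q * t ^ 6) := by
          gcongr
          linarith
      _ = R * (t ^ 7 * q) := by ring
      _ ≤ R * (x ^ ε * q) := by
          gcongr
          exact (pow_le_pow_right₀ ht1 (by norm_num)).trans ht40
  calc 2 * (x ^ (1 / 3 - ε) / q) * x ≤ R / t ^ 2 * x := by gcongr
    _ = R * x / t ^ 2 := by ring
    _ ≤ V := by
        rw [div_le_iff₀ (by positivity)]
        linarith

end Pool.Agent.D0H44.EC
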